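import Pool.Agent.KS6_69.Toric.Coef

set_option autoImplicit false

namespace Pool.Agent.KS6_69.Toric

open Finset Polynomial

/-- The toric `g`-contribution polynomial
`g_{n,j}(x) = sum_{k=0}^{min(n/2, n-j)} C_{n-k-j} binom(n-k,k) (x-1)^k`, `C_m` the Catalan numbers. -/
noncomputable def g (n j : ℕ) : ℝ[X] :=
  ∑ k ∈ range (min (n / 2) (n - j) + 1),
    C ((catalan (n - k - j) : ℝ) * ((n - k).choose k : ℝ)) * (X - 1) ^ k

/-- A real polynomial is real-rooted: it is nonzero and all its complex roots are real. -/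
def RealRooted (p : ℝ[X]) : Prop := p ≠ 0 ∧ ∀ z : ℂ, aeval z p = 0 → z.im = 0

lemma g_eq {n j : ℕ} (hj : j ≤ n / 2) : g n j = (G n j).comp (X - 1) := by
  unfold g G
  have h : min (n / 2) (n - j) = n / 2 := by omega
  rw [h, Polynomial.sum_comp]
  apply Finset.sum_congr rfl
  intro k _
  simp [cf]

lemma G_natDegree (n j : ℕ) : (G n j).natDegree ≤ n / 2 := by
  unfold G
  apply natDegree_sum_le_of_forall_le
  intro k hk
  exact (natDegree_C_mul_X_pow_le _ _).trans (Nat.lt_succ_iff.1 (mem_range.1 hk))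

theorem combo_realRooted (n : ℕ) (γ : ℕ → ℝ) (hγ : ∀ j ≤ n / 2, 0 ≤ γ j) (hne : ∃ j ≤ n / 2, γ j ≠ 0) :
    RealRooted (∑ j ∈ range (n / 2 + 1), C (γ j) * g n j) := by
  obtain ⟨D, e, he, hn⟩ : ∃ D e, e ≤ 1 ∧ n = 2 * D + e := ⟨n / 2, n % 2, by omega, by omega⟩
  have hD : n / 2 = D := by omega
  set F : ℝ[X] := ∑ j ∈ range (n / 2 + 1), C (γ j) * G n j with hF
  have hcomp : (∑ j ∈ range (n / 2 + 1), C (γ j) * g n j) = F.comp (X - 1) := by
    rw [hF, Polynomial.sum_comp]
    apply Finset.sum_congr rfl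
    intro j hj
    rw [mul_comp, C_comp, g_eq (Nat.lt_succ_iff.1 (mem_range.1 hj))]
  obtain ⟨j0, hj0, hγ0⟩ := hne
  have hγ0' : 0 < γ j0 := lt_of_le_of_ne (hγ j0 hj0) hγ0.symm
  have hF0 : 0 < F.eval 0 := by
    rw [hF, eval_finsetSum]
    have hG0 : ∀ j, 0 < (G n j).eval 0 := by
      intro j
      rw [G_eval, Finset.sum_eq_single 0]
      · simpa using cf_pos (n := n) (j := j) (k := 0) (Nat.zero_le _)
      · intro k _ hk
        rw [zero_pow hk, mul_zero]
      · simp
    apply Finset.sum_pos'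
    · intro j hj
      rw [eval_mul, eval_C]
      exact mul_nonneg (hγ j (Nat.lt_succ_iff.1 (mem_range.1 hj))) (hG0 j).le
    · refine ⟨j0, mem_range.2 (by omega), ?_⟩
      rw [eval_mul, eval_C]
      exact mul_pos hγ0' (hG0 j0)
  have hFne : F ≠ 0 := by
    intro h
    rw [h, eval_zero] at hF0
    exact lt_irrefl _ hF0
  have hFdeg : F.natDegree ≤ D := by
    rw [hF]
    apply natDegree_sum_le_of_forall_le
    intro j _
    refine (natDegree_C_mul_le _ _).trans ?_
    rw [← hD]
    exact G_natDegree n j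
  have hreal : ∀ z : ℂ, aeval z F = 0 → z.im = 0 := by
    rcases Nat.eq_zero_or_pos D with h0 | hpos
    · intro z hz
      exfalso
      rw [h0, Nat.le_zero] at hFdeg
      rw [eq_C_of_natDegree_eq_zero hFdeg, aeval_C] at hz
      have h1 : F.coeff 0 = 0 := by
        have : (algebraMap ℝ ℂ) (F.coeff 0) = (algebraMap ℝ ℂ) 0 := by rw [hz, map_zero]
        exact (algebraMap ℝ ℂ).injective this
      rw [coeff_zero_eq_eval_zero] at h1
      exact hF0.ne' h1
    · have ha : (D : ℝ) - 1 < (D : ℝ) + e - 1 / 2 := by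
        have : (0 : ℝ) ≤ e := by positivity
        linarith
      apply real_of_sign hpos (H_natDegree ha) hFdeg (H_good ha).im
      intro y hy
      have h1 : ∀ j ≤ D, (G n j).eval y * (derivative (H ((D : ℝ) + e - 1 / 2) D)).eval y < 0 :=
        fun j hj => G_sign hn he hj hy
      rw [hF, eval_finsetSum, Finset.sum_mul]
      have h2 : 0 < ∑ j ∈ range (n / 2 + 1),
          (-(eval y (C (γ j) * G n j) * (derivative (H ((D : ℝ) + e - 1 / 2) D)).eval y)) := by
        apply Finset.sum_pos'
        · intro j hj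
          rw [eval_mul, eval_C]
          have h3 := h1 j (by rw [← hD]; exact Nat.lt_succ_iff.1 (mem_range.1 hj))
          have h4 := hγ j (Nat.lt_succ_iff.1 (mem_range.1 hj))
          have : 0 ≤ γ j * (-(eval y (G n j) * (derivative (H ((D : ℝ) + e - 1 / 2) D)).eval y)) :=
            mul_nonneg h4 (by linarith)
          linarith
        · refine ⟨j0, mem_range.2 (by omega), ?_⟩
          rw [eval_mul, eval_C]
          have h3 := h1 j0 (by omega)
          have : 0 < γ j0 * (-(eval y (G n j0) * (derivative (H ((D : ℝ) + e - 1 / 2) D)).eval y)) :=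
            mul_pos hγ0' (by linarith)
          linarith
      rw [Finset.sum_neg_distrib] at h2
      linarith
  rw [hcomp]
  constructor
  · intro h0
    have h1 : (F.comp (X - 1)).eval 1 = 0 := by rw [h0]; simp
    rw [eval_comp] at h1
    simp only [eval_sub, eval_X, eval_one, sub_self] at h1
    exact hF0.ne' h1
  · intro z hz
    rw [aeval_comp] at hz
    have := hreal _ hz
    simp only [map_sub, aeval_X, map_one, Complex.sub_im, Complex.one_im, sub_zero] at this
    exact this

end Pool.Agent.KS6_69.Toric
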