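import Pool.Agent.KS6_69.Toric.Main

set_option autoImplicit false

namespace Pool.Agent.KS6_69.Toric

open Finset Polynomial

/-- the value at `y` of the polynomial with coefficients
`binom(D,k) prod_{l<L} (a+l+1-k) prod_{i<r} (a+L+5/2+i-k)` -/
noncomputable def S (a : ℝ) (D L r : ℕ) (y : ℝ) : ℝ :=
  ∑ k ∈ range (D + 1), (D.choose k : ℝ) * (∏ l ∈ range L, (a + (l + 1) - k)) *
    (∏ i ∈ range r, (a + L + 5 / 2 + i - k)) * y ^ k

lemma P_split (a : ℝ) (L r k : ℕ) :
    P a (L + r + 1) k = (∏ l ∈ range L, (a + (l + 1) - k)) * (a + (L + 1) - k) *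
      ∏ m ∈ range (r + 1), (a + L + 2 + m - k) := by
  unfold P
  rw [show L + r + 1 + 1 = (L + 1) + (r + 1) by ring, prod_range_add, prod_range_succ]
  congr 1
  apply prod_congr rfl
  intro m _
  push_cast
  ring

lemma S_pos {a : ℝ} {D L r : ℕ} (ha : (D : ℝ) - 1 < a) (hD : D = L + r + 1) {y : ℝ}
    (hy : (H a D).eval y = 0) (hE : E a D y 1 ≠ 0) : 0 < S a D L r y * E a D y 1 := by
  obtain ⟨l, hl, hid⟩ := expand (fun m => a + L + 2 + m) (fun i => a + L + 5 / 2 + i) (by
    intro q r hqr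
    have : (q : ℝ) ≤ r := by exact_mod_cast hqr
    push_cast
    constructor <;> linarith) r
  have e1 : S a D L r y = ∑ q ∈ range (r + 1), (l q / (q + 1)) * (E a D y (L + 1) - E a D y (L + 2 + q)) := by
    have e2 : ∀ q, (l q / ((q : ℝ) + 1)) * (E a D y (L + 1) - E a D y (L + 2 + q)) =
        ev a D y fun k => (l q / (q + 1)) * (1 / (a + ((L + 1 : ℕ) : ℝ) - k)) +
          (-(l q / (q + 1))) * (1 / (a + ((L + 2 + q : ℕ) : ℝ) - k)) := by
      intro q
      rw [ev_add, ev_mul, ev_mul]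
      unfold E
      ring
    simp only [e2]
    unfold S ev
    rw [sum_comm]
    apply sum_congr rfl
    intro k hk
    have hkD : k ≤ D := Nat.lt_succ_iff.1 (mem_range.1 hk)
    have hne : ∀ m < r + 1, (a + L + 2 + m : ℝ) - k ≠ 0 := by
      intro m _
      have h1 : (k : ℝ) ≤ D := by exact_mod_cast hkD
      have h2 : (0 : ℝ) ≤ L := by positivity
      have h3 : (0 : ℝ) ≤ m := by positivity
      intro h0; linarith
    have h1 := hid (k : ℝ) hne
    have hL1 : a + (L + 1) - (k : ℝ) ≠ 0 := by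
      have := (den_pos ha hkD (L + 1) (by omega)).ne'
      push_cast at this
      exact this
    rw [← mul_sum]
    unfold W
    have h2 : (D.choose k : ℝ) * (∏ l ∈ range L, (a + (l + 1) - k)) *
        (∏ i ∈ range r, (a + L + 5 / 2 + i - k)) * y ^ k =
        (D.choose k : ℝ) * y ^ k * ((∏ l ∈ range L, (a + (l + 1) - k)) *
          ∏ i ∈ range r, (a + L + 5 / 2 + i - k)) := by ring
    rw [h2, h1]
    have h3 : (D.choose k : ℝ) * P a D k * y ^ k = (D.choose k : ℝ) * y ^ k *
        ((∏ l ∈ range L, (a + (l + 1) - k)) * (a + (L + 1) - k) *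
      ∏ m ∈ range (r + 1), (a + L + 2 + m - k)) := by
      rw [hD, P_split]; ring
    rw [h3, mul_assoc, mul_assoc, mul_assoc]
    congr 1
    congr 1
    rw [mul_assoc, mul_sum, mul_sum, mul_sum, mul_sum]
    apply sum_congr rfl
    intro q hq
    have h4 := hne q (mem_range.1 hq)
    have h5 : (a + ((L + 1 : ℕ) : ℝ) - k) ≠ 0 := by push_cast; exact hL1
    have h6 : (a + ((L + 2 + q : ℕ) : ℝ) - k) ≠ 0 := by
      push_cast
      rw [← add_assoc, ← add_assoc]
      exact h4
    have h7 : (q : ℝ) + 1 ≠ 0 := by positivity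
    push_cast at h5 h6 ⊢
    field_simp
    ring
  rw [e1, sum_mul]
  apply sum_pos
  · intro q hq
    have hq := mem_range.1 hq
    have h1 := E_lt ha hy hE (p := L + 1) (by omega) (L + 2 + q) (by omega) (by omega)
    have h2 := hl q hq
    have h3 : (l q / ((q : ℝ) + 1)) * (E a D y (L + 1) - E a D y (L + 2 + q)) * E a D y 1 =
        (l q / (q + 1)) * (E a D y (L + 1) * E a D y 1 - E a D y (L + 2 + q) * E a D y 1) := by ring
    rw [h3]
    apply mul_pos
    · positivity
    · linarith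
  · exact ⟨0, by simp⟩

end Pool.Agent.KS6_69.Toric
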