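import Pool.Agent.KS6_69.Toric.Main

set_option autoImplicit false

namespace Pool.Agent.KS6_69.Toric

open Finset Polynomial

lemma prod_erase_factorial (D l : ℕ) (hl : l < D) :
    ∏ m ∈ (range D).erase l, ((l : ℝ) - m) = (-1) ^ (D - 1 - l) * (l.factorial * (D - 1 - l).factorial) := by
  obtain ⟨r, rfl⟩ : ∃ r, D = l + 1 + r := ⟨D - (l + 1), by omega⟩
  have h1 : (range (l + 1 + r)).erase l = range l ∪ (range r).image (fun i => l + 1 + i) := by
    ext m
    simp only [mem_erase, mem_range, mem_union, mem_image]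
    constructor
    · rintro ⟨h1, h2⟩
      rcases Nat.lt_or_ge m l with h | h
      · exact Or.inl h
      · exact Or.inr ⟨m - (l + 1), by omega, by omega⟩
    · rintro (h | ⟨i, hi, rfl⟩)
      · omega
      · omega
  have h2 : Disjoint (range l) ((range r).image (fun i => l + 1 + i)) := by
    rw [disjoint_left]
    intro m h1 h2
    simp only [mem_range, mem_image] at h1 h2
    omega
  rw [h1, prod_union h2, prod_image (by intro i _ j _ h; simpa using h)]
  have h3 : l + 1 + r - 1 - l = r := by omega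
  rw [h3]
  have h4 : ∏ m ∈ range l, ((l : ℝ) - m) = l.factorial := by
    rw [← prod_range_add_one_eq_factorial, ← prod_range_reflect]
    push_cast
    apply prod_congr rfl
    intro m hm
    have hm := mem_range.1 hm
    rw [Nat.cast_sub (by omega), Nat.cast_sub (by omega)]
    push_cast
    ring
  have h5 : ∏ i ∈ range r, ((l : ℝ) - ((l + 1 + i : ℕ) : ℝ)) = (-1) ^ r * r.factorial := by
    have : ∀ i : ℕ, ((l : ℝ) - ((l + 1 + i : ℕ) : ℝ)) = (-1) * ((i : ℝ) + 1) := by
      intro i; push_cast; ring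
    simp only [this]
    rw [prod_mul_distrib, prod_const, card_range, ← prod_range_add_one_eq_factorial]
    push_cast
    rfl
  rw [h4, h5]
  ring

lemma alt_pos {D : ℕ} {K : ℝ[X]} (hKD : ∀ i, D ≤ i → K.coeff i = 0)
    (hpos : ∀ t : ℝ, -1 ≤ t → 0 < K.eval t) :
    0 < ∑ i ∈ range D, (-1) ^ i * K.coeff i / ((i : ℝ) + 3 / 2) := by
  have hdeg : K.natDegree < D := by
    by_contra h
    push Not at h
    have h1 := hKD _ h
    have h2 : K.leadingCoeff = 0 := h1
    rw [leadingCoeff_eq_zero] at h2
    have := hpos 0 (by norm_num)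
    rw [h2] at this
    simp at this
  have hint : ∫ t in (0 : ℝ)..1, 2 * t ^ 2 * K.eval (-t ^ 2) =
      ∑ i ∈ range D, (-1) ^ i * K.coeff i / ((i : ℝ) + 3 / 2) := by
    have h1 : ∀ t : ℝ, 2 * t ^ 2 * K.eval (-t ^ 2) =
        ∑ i ∈ range D, (2 * ((-1) ^ i * K.coeff i)) * t ^ (2 * i + 2) := by
      intro t
      rw [eval_eq_sum_range' hdeg, mul_sum]
      apply sum_congr rfl
      intro i _
      rw [neg_pow (t ^ 2), pow_add, pow_mul]
      ring
    simp only [h1]
    rw [intervalIntegral.integral_finsetSum]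
    · apply sum_congr rfl
      intro i _
      rw [intervalIntegral.integral_const_mul, integral_pow]
      push_cast
      have : ((2 : ℝ) * i + 2 + 1) ≠ 0 := by positivity
      have h2 : ((i : ℝ) + 3 / 2) ≠ 0 := by positivity
      field_simp
      ring
    · intro i _
      exact (by fun_prop : Continuous fun t : ℝ => (2 * ((-1) ^ i * K.coeff i)) * t ^ (2 * i + 2)).intervalIntegrable _ _
  rw [← hint]
  apply intervalIntegral.intervalIntegral_pos_of_pos_on
  · have : Continuous fun t : ℝ => 2 * t ^ 2 * K.eval (-t ^ 2) := by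
      have h := K.continuous
      fun_prop
    exact this.intervalIntegrable _ _
  · intro t ht
    have h1 : 0 < t := ht.1
    have h2 := ht.2
    have h3 : (-1 : ℝ) ≤ -t ^ 2 := by nlinarith
    have := hpos _ h3
    positivity
  · norm_num

/-- the value at `y` of the polynomial with coefficients `hc_k / (a + D + 3/2 - k)` -/
noncomputable def S0 (a : ℝ) (D : ℕ) (y : ℝ) : ℝ :=
  ∑ k ∈ range (D + 1), hc a D k * y ^ k * (1 / (a + D + 3 / 2 - k))

lemma prod_reflect_P (a : ℝ) (p i : ℕ) :
    ∏ m ∈ range (p + i + 1), (a + p - m) = P a (p + i) (i + 1) := by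
  unfold P
  rw [← prod_range_reflect]
  apply prod_congr rfl
  intro m hm
  have hm := mem_range.1 hm
  rw [Nat.cast_sub (by omega), Nat.cast_sub (by omega)]
  push_cast
  ring

lemma S0_pos {a : ℝ} {D : ℕ} (ha : (D : ℝ) - 1 < a) {y : ℝ}
    (hy : (H a D).eval y = 0) (hE : E a D y 1 ≠ 0) : 0 < S0 a D y * E a D y 1 := by
  have hD : 0 < D := by
    by_contra h0
    have h0 : D = 0 := by omega
    subst h0
    have h1 := hc_pos ha (le_refl 0)
    have : (H a 0).eval y = hc a 0 0 := by
      unfold H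
      simp
    rw [this] at hy
    exact h1.ne' hy
  obtain ⟨K, hK, hLC, hpos, hKD, hKe⟩ := exists_K ha hy
  have hf := E_formula ha hy hK hKD
  set V : ℕ → ℝ := fun k => hc a D k * y ^ k with hV
  have hVsum : ∑ k ∈ range (D + 1), V k = 0 := by
    rw [← hy]
    unfold H
    rw [eval_finsetSum]
    apply sum_congr rfl
    intro k _
    simp [hV]
  have hNdeg := Num_degree hD V hVsum
  -- values of the numerator at `a + p`
  have hNval : ∀ p i, 1 ≤ p → p + i = D →
      ((i : ℝ) + 1) * (D.choose (i + 1)) * (Num D V).eval (a + p) = (a + 1) * K.coeff i * E a D y 1 := by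
    intro p i hp hpi
    subst hpi
    rw [Num_eval _ (fun k hk => (den_pos ha hk p hp).ne'), ← hf p hp i rfl, prod_reflect_P]
    have e1 : (∑ k ∈ range (p + i + 1), V k * (1 / (a + p - k))) * ((i : ℝ) + 1) = E a (p + i) y p := by
      have e2 : E a (p + i) y p = E a (p + i) y p + (-1) * E a (p + i) y (p + i + 1) := by
        rw [← H_eval, hy]; ring
      rw [e2]
      unfold E
      rw [← ev_mul, ← ev_add]
      unfold ev W
      rw [sum_mul]
      apply sum_congr rfl
      intro k hk
      have hkD : k ≤ p + i := Nat.lt_succ_iff.1 (mem_range.1 hk)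
      have h1 := (den_pos ha hkD p hp).ne'
      have h2 := (den_pos ha hkD (p + i + 1) (by omega)).ne'
      simp only [hV]
      unfold hc
      push_cast at h2 ⊢
      field_simp
      ring
    rw [← e1]
    have e3 : (a + p) * hc a (p + i) (i + 1) = ((p + i).choose (i + 1)) * P a (p + i) (i + 1) := by
      unfold hc
      have h2 : a + p ≠ 0 := by
        have := (den_pos ha (Nat.zero_le _) p hp).ne'
        simpa using this
      have h3 : a + ((p + i + 1 : ℕ) : ℝ) - ((i + 1 : ℕ) : ℝ) = a + p := by push_cast; ring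
      rw [h3]
      field_simp
    rw [e3]
    ring
  -- interpolation
  have hinj : Set.InjOn (fun l : ℕ => a + ((l : ℝ) + 1)) (range D : Set ℕ) := by
    intro i _ j _ hij
    simpa using hij
  have hint := Lagrange.eq_interpolate (s := range D) (v := fun l : ℕ => a + ((l : ℝ) + 1)) hinj
    (f := Num D V) (by
      rw [card_range]
      exact lt_of_le_of_lt degree_le_natDegree (by exact_mod_cast hNdeg))
  have ht0 : ∀ l ∈ range D, (a + D + 3 / 2 : ℝ) ≠ a + ((l : ℝ) + 1) := by
    intro l hl
    have : (l : ℝ) + 1 ≤ D := by exact_mod_cast mem_range.1 hl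
    intro h; linarith
  have hval : (Num D V).eval (a + D + 3 / 2) =
      (∏ l ∈ range D, ((a + D + 3 / 2 : ℝ) - (a + ((l : ℝ) + 1)))) *
        ((a + 1) * E a D y 1 / D.factorial * ∑ i ∈ range D, (-1) ^ i * K.coeff i / ((i : ℝ) + 3 / 2)) := by
    rw [hint, Lagrange.eval_interpolate_not_at_node _ ht0, Lagrange.eval_nodal]
    congr 1
    rw [← sum_range_reflect (fun i => (-1) ^ i * K.coeff i / ((i : ℝ) + 3 / 2)), mul_sum]
    apply sum_congr rfl
    intro l hl
    have hlD := mem_range.1 hl
    have h1 := hNval (l + 1) (D - 1 - l) (by omega) (by omega)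
    have h2 := prod_erase_factorial D l hlD
    have h3 : Lagrange.nodalWeight (range D) (fun l : ℕ => a + ((l : ℝ) + 1)) l =
        ((-1) ^ (D - 1 - l) * (l.factorial * (D - 1 - l).factorial : ℝ))⁻¹ := by
      unfold Lagrange.nodalWeight
      rw [prod_inv_distrib, ← h2]
      congr 1
      apply prod_congr rfl
      intro m _
      ring
    rw [h3]
    have h4 : (D.choose (D - 1 - l + 1) : ℝ) * (l.factorial * (D - 1 - l + 1).factorial) = D.factorial := by
      have := Nat.choose_mul_factorial_mul_factorial (show D - 1 - l + 1 ≤ D by omega)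
      rw [show D - (D - 1 - l + 1) = l by omega] at this
      rw [← this]
      push_cast
      ring
    have h5 : ((D - 1 - l : ℕ) : ℝ) = D - 1 - l := by
      rw [Nat.cast_sub (by omega), Nat.cast_sub (by omega)]
      simp
    have h6 : ((-1 : ℝ) ^ (D - 1 - l)) * (-1) ^ (D - 1 - l) = 1 := by
      rw [← mul_pow]; simp
    rw [Nat.factorial_succ] at h4
    set i := D - 1 - l with hi
    have f1 : (l.factorial : ℝ) ≠ 0 := by exact_mod_cast l.factorial_ne_zero
    have f2 : (i.factorial : ℝ) ≠ 0 := by exact_mod_cast i.factorial_ne_zero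
    have f3 : (D.factorial : ℝ) ≠ 0 := by exact_mod_cast D.factorial_ne_zero
    have f4 : ((i : ℝ) + 3 / 2) ≠ 0 := by positivity
    have f5 : ((-1 : ℝ) ^ i) ≠ 0 := by
      intro h0
      rw [h0] at h6
      norm_num at h6
    have f6 : (a + D + 3 / 2 - (a + ((l : ℝ) + 1))) = (i : ℝ) + 3 / 2 := by
      rw [h5]; ring
    rw [f6]
    have f7 : (Num D V).eval (a + ((l + 1 : ℕ) : ℝ)) = (Num D V).eval (a + ((l : ℝ) + 1)) := by
      push_cast; rfl
    rw [f7] at h1
    have f8 : ((i : ℝ) + 1) * (D.choose (i + 1) : ℝ) ≠ 0 := by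
      have : 0 < (D.choose (i + 1) : ℝ) := by exact_mod_cast Nat.choose_pos (by omega)
      positivity
    have f9 : (Num D V).eval (a + ((l : ℝ) + 1)) =
        (a + 1) * K.coeff i * E a D y 1 / (((i : ℝ) + 1) * (D.choose (i + 1) : ℝ)) := by
      rw [eq_div_iff f8]
      linear_combination h1
    rw [f9]
    push_cast at h4
    rw [← h4]
    have f10 : (D.choose (i + 1) : ℝ) ≠ 0 := by
      have : 0 < (D.choose (i + 1) : ℝ) := by exact_mod_cast Nat.choose_pos (by omega)
      exact this.ne'
    have f11 : (i : ℝ) + 1 ≠ 0 := by positivity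
    field_simp
    linear_combination (-((a + 1) * K.coeff i)) * h6
  have halt := alt_pos hKD hKe
  have hP : 0 < ∏ l ∈ range D, ((a + D + 3 / 2 : ℝ) - (a + ((l : ℝ) + 1))) := by
    apply prod_pos
    intro l hl
    have : (l : ℝ) + 1 ≤ D := by exact_mod_cast mem_range.1 hl
    linarith
  have hden : ∀ k ≤ D, (a + D + 3 / 2 : ℝ) - k ≠ 0 := by
    intro k hk
    have h1 : (k : ℝ) ≤ D := by exact_mod_cast hk
    have h2 : (0 : ℝ) ≤ D := by positivity
    have h3 : (1 : ℝ) ≤ D := by exact_mod_cast hD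
    intro h0; linarith
  have hS : (∏ m ∈ range (D + 1), ((a + D + 3 / 2 : ℝ) - m)) * S0 a D y = (Num D V).eval (a + D + 3 / 2) := by
    rw [Num_eval V hden]
    rfl
  have hQ : 0 < ∏ m ∈ range (D + 1), ((a + D + 3 / 2 : ℝ) - m) := by
    apply prod_pos
    intro k hk
    have h1 : (k : ℝ) ≤ D := by exact_mod_cast Nat.lt_succ_iff.1 (mem_range.1 hk)
    have h3 : (1 : ℝ) ≤ D := by exact_mod_cast hD
    linarith
  have ha1 : 0 < a + 1 := by
    have : (0 : ℝ) ≤ D := by positivity
    linarith
  have hE2 : 0 < E a D y 1 ^ 2 := by positivity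
  have hfin : 0 < (∏ m ∈ range (D + 1), ((a + D + 3 / 2 : ℝ) - m)) * (S0 a D y * E a D y 1) := by
    rw [← mul_assoc, hS, hval]
    have hfac : (0 : ℝ) < D.factorial := by positivity
    have : (∏ l ∈ range D, ((a + D + 3 / 2 : ℝ) - (a + ((l : ℝ) + 1)))) *
        ((a + 1) * E a D y 1 / D.factorial * ∑ i ∈ range D, (-1) ^ i * K.coeff i / ((i : ℝ) + 3 / 2)) *
        E a D y 1 = (∏ l ∈ range D, ((a + D + 3 / 2 : ℝ) - (a + ((l : ℝ) + 1)))) *
        ((a + 1) * E a D y 1 ^ 2 / D.factorial * ∑ i ∈ range D, (-1) ^ i * K.coeff i / ((i : ℝ) + 3 / 2)) := by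
      ring
    rw [this]
    positivity
  exact pos_of_mul_pos_right hfin hQ.le

end Pool.Agent.KS6_69.Toric
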