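import Pool.Agent.KS6_69.Toric.PF
import Pool.Agent.KS6_69.Toric.SignJ
import Pool.Agent.KS6_69.Toric.SignZero

set_option autoImplicit false

namespace Pool.Agent.KS6_69.Toric

open Finset Polynomial

/-- the coefficient of `(x-1)^k` in `g_{n,j}` -/
noncomputable def cf (n j k : ℕ) : ℝ := (catalan (n - k - j) : ℝ) * ((n - k).choose k : ℝ)

lemma catalan_real (m : ℕ) : (catalan m : ℝ) = ((2 * m).factorial : ℝ) / (m.factorial * (m + 1).factorial) := by
  have h := succ_mul_catalan_eq_centralBinom m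
  have h1 : ((m + 1 : ℕ) : ℝ) * catalan m = ((2 * m).choose m : ℝ) := by
    rw [← Nat.centralBinom_eq_two_mul_choose]; exact_mod_cast h
  rw [Nat.cast_choose ℝ (by omega), show 2 * m - m = m by omega] at h1
  have h2 : ((m + 1 : ℕ) : ℝ) ≠ 0 := Nat.cast_ne_zero.2 (by omega)
  have h3 : (m.factorial : ℝ) ≠ 0 := Nat.cast_ne_zero.2 m.factorial_ne_zero
  rw [Nat.factorial_succ, Nat.cast_mul]
  field_simp at h1 ⊢
  rw [← h1]

/-- `Wp L x = prod_{l < L} (x + l + 1/2)` -/
noncomputable def Wp (L : ℕ) (x : ℝ) : ℝ := ∏ l ∈ range L, (x + l + 1 / 2)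

lemma Wp_nat (L x : ℕ) :
    Wp L x * (4 ^ L * ((2 * x).factorial : ℝ) * ((x + L).factorial : ℝ)) =
      ((2 * (x + L)).factorial : ℝ) * (x.factorial : ℝ) := by
  induction L with
  | zero => simp [Wp]
  | succ L ih =>
    have h1 : Wp (L + 1) x = Wp L x * (x + L + 1 / 2) := by
      unfold Wp
      rw [Finset.prod_range_succ]
    have h2 : ((2 * (x + (L + 1))).factorial : ℝ) =
        (2 * (x + L) + 2) * (2 * (x + L) + 1) * ((2 * (x + L)).factorial : ℝ) := by
      have : 2 * (x + (L + 1)) = (2 * (x + L) + 1) + 1 := by ring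
      rw [this, Nat.factorial_succ, Nat.factorial_succ]
      push_cast
      ring
    have h3 : ((x + (L + 1)).factorial : ℝ) = (x + L + 1) * ((x + L).factorial : ℝ) := by
      rw [← add_assoc, Nat.factorial_succ]
      push_cast
      ring
    rw [h1, h2, h3, pow_succ]
    linear_combination (4 * (x + L + 1 / 2) * (x + L + 1)) * ih

lemma choose_real {a b c : ℕ} (h : a = b + c) :
    ((a.choose b : ℕ) : ℝ) = (a.factorial : ℝ) / (b.factorial * c.factorial) := by
  have h1 := Nat.choose_mul_factorial_mul_factorial (n := a) (k := b) (by omega)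
  have h2 : a - b = c := by omega
  rw [h2] at h1
  have hb : (b.factorial : ℝ) ≠ 0 := by exact_mod_cast b.factorial_ne_zero
  have hc : (c.factorial : ℝ) ≠ 0 := by exact_mod_cast c.factorial_ne_zero
  rw [eq_div_iff (mul_ne_zero hb hc)]
  rw [← mul_assoc]
  exact_mod_cast h1

/-- the product formula for the coefficients; `n = 2 D + e` with `e ∈ {0, 1}` -/
lemma cf_formula {n D e j k : ℕ} (hn : n = 2 * D + e) (he : e ≤ 1) (hj : j ≤ D) (hk : k ≤ D) :
    cf n j k = ((1 + e) * 4 ^ (D - j) / D.factorial) * (D.choose k : ℝ) *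
      Wp (D - j) ((D + e : ℕ) - k) *
      (((n - k).factorial : ℝ) / ((n - k - j + 1).factorial : ℝ)) := by
  obtain ⟨h, rfl⟩ : ∃ h, D = h + k := ⟨D - k, by omega⟩
  obtain ⟨L, hL⟩ : ∃ L, h + k = L + j := ⟨h + k - j, by omega⟩
  have hLj : h + k - j = L := by omega
  have hm : n - k - j = (h + e) + L := by omega
  have hnk : n - k = k + (2 * h + e) := by omega
  unfold cf
  rw [hLj, hm, catalan_real, choose_real hnk, choose_real (show h + k = k + h by ring)]
  have hx : (((h + k + e : ℕ) : ℝ) - k) = ((h + e : ℕ) : ℝ) := by push_cast; ring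
  rw [hx]
  have hW := Wp_nat L (h + e)
  have f1 : (((h + e) + L).factorial : ℝ) ≠ 0 := by exact_mod_cast Nat.factorial_ne_zero _
  have f2 : (((h + e) + L + 1).factorial : ℝ) ≠ 0 := by exact_mod_cast Nat.factorial_ne_zero _
  have f3 : ((k).factorial : ℝ) ≠ 0 := by exact_mod_cast Nat.factorial_ne_zero _
  have f4 : ((h).factorial : ℝ) ≠ 0 := by exact_mod_cast Nat.factorial_ne_zero _
  have f5 : ((h + k).factorial : ℝ) ≠ 0 := by exact_mod_cast Nat.factorial_ne_zero _
  have f6 : ((2 * h + e).factorial : ℝ) ≠ 0 := by exact_mod_cast Nat.factorial_ne_zero _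
  have f7 : ((2 * (h + e)).factorial : ℝ) ≠ 0 := by exact_mod_cast Nat.factorial_ne_zero _
  have hW' : Wp L ((h + e : ℕ) : ℝ) = ((2 * ((h + e) + L)).factorial : ℝ) * ((h + e).factorial : ℝ) /
      (4 ^ L * ((2 * (h + e)).factorial : ℝ) * (((h + e) + L).factorial : ℝ)) := by
    rw [eq_div_iff (by positivity)]
    exact hW
  rw [hW']
  have key : (1 + (e : ℝ)) * ((h + e).factorial : ℝ) * ((2 * h + e).factorial : ℝ) =
      (h.factorial : ℝ) * ((2 * (h + e)).factorial : ℝ) := by
    interval_cases e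
    · simp
    · have e1 : 2 * (h + 1) = (2 * h + 1) + 1 := by ring
      rw [e1, Nat.factorial_succ (2 * h + 1), Nat.factorial_succ h]
      push_cast
      ring
  field_simp
  linear_combination (-1 : ℝ) * key

lemma cf_pos {n j k : ℕ} (hk : k ≤ n / 2) : 0 < cf n j k := by
  unfold cf
  have h1 : (0 : ℝ) < (catalan (n - k - j) : ℝ) := by
    rw [catalan_real]; positivity
  have h2 : 0 < (n - k).choose k := Nat.choose_pos (by omega)
  have h2' : (0 : ℝ) < ((n - k).choose k : ℝ) := by exact_mod_cast h2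
  positivity

/-- `g_{n,j}` as a polynomial in `y = x - 1` -/
noncomputable def G (n j : ℕ) : ℝ[X] := ∑ k ∈ range (n / 2 + 1), C (cf n j k) * X ^ k

lemma G_eval (n j : ℕ) (y : ℝ) : (G n j).eval y = ∑ k ∈ range (n / 2 + 1), cf n j k * y ^ k := by
  unfold G
  rw [eval_finsetSum]
  simp

lemma factorial_ratio (m r : ℕ) :
    ((m + r).factorial : ℝ) / (m.factorial : ℝ) = ∏ i ∈ range r, ((m : ℝ) + 1 + i) := by
  induction r with
  | zero => 
    have : (m.factorial : ℝ) ≠ 0 := by exact_mod_cast m.factorial_ne_zero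
    simp [this]
  | succ r ih =>
    rw [prod_range_succ, ← ih, ← add_assoc, Nat.factorial_succ]
    push_cast
    ring

lemma Wp_eq (D e L k : ℕ) : Wp L ((D + e : ℕ) - k) =
    ∏ l ∈ range L, (((D : ℝ) + e - 1 / 2) + (l + 1) - k) := by
  unfold Wp
  apply prod_congr rfl
  intro l _
  push_cast
  ring

section
variable {n D e : ℕ} (hn : n = 2 * D + e) (he : e ≤ 1)
include hn he

lemma G_eval_pos_index {L r : ℕ} (hD : D = L + r + 1) (y : ℝ) :
    (G n (r + 1)).eval y = ((1 + e) * 4 ^ L / D.factorial) * S ((D : ℝ) + e - 1 / 2) D L r y := by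
  rw [G_eval]
  unfold S
  rw [mul_sum, show n / 2 = D by omega]
  apply sum_congr rfl
  intro k hk
  have hkD : k ≤ D := Nat.lt_succ_iff.1 (mem_range.1 hk)
  rw [cf_formula hn he (show r + 1 ≤ D by omega) hkD, Wp_eq]
  have h1 : D - (r + 1) = L := by omega
  have h2 : n - k - (r + 1) + 1 = n - k - r := by omega
  have h3 : n - k = (n - k - r) + r := by omega
  rw [h1, h2]
  conv_lhs => rw [h3]
  rw [Nat.add_sub_cancel, factorial_ratio]
  have h4 : ((n - k - r : ℕ) : ℝ) = D + e + L + 1 - k := by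
    have : n - k - r + k = D + e + L + 1 := by omega
    have : ((n - k - r : ℕ) : ℝ) + k = D + e + L + 1 := by exact_mod_cast this
    linarith
  have h5 : ∏ i ∈ range r, (((n - k - r : ℕ) : ℝ) + 1 + i) =
      ∏ i ∈ range r, (((D : ℝ) + e - 1 / 2) + L + 5 / 2 + i - k) := by
    apply prod_congr rfl
    intro i _
    rw [h4]
    ring
  rw [h5]
  ring

lemma G_eval_zero_index (y : ℝ) :
    (G n 0).eval y = ((1 + e) * 4 ^ D / D.factorial) * S0 ((D : ℝ) + e - 1 / 2) D y := by
  rw [G_eval]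
  unfold S0
  rw [mul_sum, show n / 2 = D by omega]
  apply sum_congr rfl
  intro k hk
  have hkD : k ≤ D := Nat.lt_succ_iff.1 (mem_range.1 hk)
  rw [cf_formula hn he (Nat.zero_le D) hkD, Wp_eq, Nat.sub_zero, Nat.sub_zero]
  have hk' : (k : ℝ) ≤ D := by exact_mod_cast hkD
  have he' : (0 : ℝ) ≤ e := by positivity
  have h1 : ((n - k : ℕ) : ℝ) = 2 * D + e - k := by
    have : n - k + k = 2 * D + e := by omega
    have : ((n - k : ℕ) : ℝ) + k = 2 * D + e := by exact_mod_cast this
    linarith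
  have h2 : ((n - k).factorial : ℝ) / ((n - k + 1).factorial : ℝ) =
      1 / (((D : ℝ) + e - 1 / 2) + D + 3 / 2 - k) := by
    rw [Nat.factorial_succ]
    have h3 : ((n - k).factorial : ℝ) ≠ 0 := by exact_mod_cast Nat.factorial_ne_zero _
    have h4 : (((D : ℝ) + e - 1 / 2) + D + 3 / 2 - k) = ((n - k + 1 : ℕ) : ℝ) := by
      push_cast; rw [h1]; ring
    rw [h4]
    push_cast
    have h5 : (((n - k : ℕ) : ℝ) + 1) ≠ 0 := by positivity
    field_simp
  rw [h2]
  unfold hc P
  rw [prod_range_succ]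
  have h7 : (((D : ℝ) + e - 1 / 2) + ((D : ℝ) + 1) - k) ≠ 0 := by
    have : (0 : ℝ) ≤ D := by positivity
    intro h; linarith
  have h8 : (((D : ℝ) + e - 1 / 2) + D + 3 / 2 - k) ≠ 0 := by
    have : (0 : ℝ) ≤ D := by positivity
    intro h; linarith
  push_cast
  generalize ((D : ℝ) + e - 1 / 2) = b at h7 h8 ⊢
  field_simp

lemma G_sign {j : ℕ} (hj : j ≤ D) {y : ℝ} (hy : (H ((D : ℝ) + e - 1 / 2) D).eval y = 0) :
    (G n j).eval y * (derivative (H ((D : ℝ) + e - 1 / 2) D)).eval y < 0 := by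
  set a : ℝ := (D : ℝ) + e - 1 / 2 with ha'
  have ha : (D : ℝ) - 1 < a := by
    have : (0 : ℝ) ≤ e := by positivity
    rw [ha']; linarith
  have hy1 := H_root_lt ha hy
  have hd := H_simple ha hy
  have hone := E_one ha hy
  have ha1 : 0 < a + 1 := by
    have : (0 : ℝ) ≤ D := by positivity
    linarith
  have hE : E a D y 1 ≠ 0 := by
    intro h
    rw [h, mul_zero] at hone
    rcases mul_eq_zero.1 hone.symm with h1 | h1
    · linarith
    · rcases mul_eq_zero.1 h1 with h2 | h2
      · linarith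
      · exact hd h2
  have hpos : 0 < (G n j).eval y * E a D y 1 := by
    rcases j with _ | r
    · rw [G_eval_zero_index hn he, mul_assoc]
      have := S0_pos ha hy hE
      have h2 : (0 : ℝ) < (1 + e) * 4 ^ D / D.factorial := by positivity
      exact mul_pos h2 this
    · obtain ⟨L, hL⟩ : ∃ L, D = L + r + 1 := ⟨D - (r + 1), by omega⟩
      rw [G_eval_pos_index hn he hL, mul_assoc]
      have := S_pos ha hL hy hE
      have h2 : (0 : ℝ) < (1 + e) * 4 ^ L / D.factorial := by positivity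
      exact mul_pos h2 this
  have h3 : (-y - 1) * y * ((G n j).eval y * (derivative (H a D)).eval y) =
      (a + 1) * ((G n j).eval y * E a D y 1) := by
    linear_combination (-((G n j).eval y)) * hone
  have h4 : 0 < (-y - 1) * y * ((G n j).eval y * (derivative (H a D)).eval y) := by
    rw [h3]; exact mul_pos ha1 hpos
  by_contra hcon
  push Not at hcon
  have h5 : (-y - 1) * y ≤ 0 := by nlinarith
  have := mul_nonpos_of_nonpos_of_nonneg h5 hcon
  linarith

end

end Pool.Agent.KS6_69.Toric
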