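import Mathlib

set_option autoImplicit false

namespace Pool.Agent.KS6_69.Toric

open Finset

/-- `P(k) = prod_{l=1}^{D+1} (a + l - k)` -/
noncomputable def P (a : ℝ) (D : ℕ) (k : ℕ) : ℝ := ∏ l ∈ range (D + 1), (a + (l + 1) - k)

/-- the weights `binom(D,k) P(k) y^k` -/
noncomputable def W (a : ℝ) (D : ℕ) (y : ℝ) (k : ℕ) : ℝ := (D.choose k : ℝ) * P a D k * y ^ k

/-- `sum_k binom(D,k) P(k) y^k psi(k)` -/
noncomputable def ev (a : ℝ) (D : ℕ) (y : ℝ) (ψ : ℕ → ℝ) : ℝ := ∑ k ∈ range (D + 1), W a D y k * ψ k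

/-- `E_p = ev (1 / (a + p - k))` -/
noncomputable def E (a : ℝ) (D : ℕ) (y : ℝ) (p : ℕ) : ℝ := ev a D y fun k => 1 / (a + p - k)

lemma P_pos {a : ℝ} {D : ℕ} (ha : (D : ℝ) - 1 < a) {k : ℕ} (hk : k ≤ D) : 0 < P a D k := by
  unfold P
  apply prod_pos
  intro l _
  have h1 : (k : ℝ) ≤ D := by exact_mod_cast hk
  have h2 : (0 : ℝ) ≤ l := by positivity
  linarith

lemma P_succ {a : ℝ} {D : ℕ} (k : ℕ) : P a D (k + 1) * (a + (D + 1) - k) = P a D k * (a - k) := by
  unfold P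
  rw [prod_range_succ' (fun l : ℕ => (a + ((l : ℝ) + 1) - ((k + 1 : ℕ) : ℝ))),
    prod_range_succ (fun l : ℕ => (a + ((l : ℝ) + 1) - (k : ℝ)))]
  have : ∀ l : ℕ, (a + (((l + 1 : ℕ) : ℝ) + 1) - ((k + 1 : ℕ) : ℝ)) = (a + ((l : ℝ) + 1) - (k : ℝ)) := by
    intro l; push_cast; ring
  simp only [this]
  push_cast
  ring

/-- the basic shift relation -/
lemma ev_shift (a : ℝ) (D : ℕ) (y : ℝ) (ψ χ : ℕ → ℝ)
    (h : ∀ k < D, P a D (k + 1) * ψ (k + 1) = P a D k * χ k) :
    ev a D y (fun k => k * ψ k) = y * ev a D y (fun k => (D - k) * χ k) := by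
  unfold ev W
  rw [sum_range_succ', sum_range_succ (fun k : ℕ => (D.choose k : ℝ) * P a D k * y ^ k * ((D - k) * χ k)),
    mul_add, mul_sum]
  simp only [Nat.cast_zero, zero_mul, mul_zero, add_zero, sub_self]
  apply sum_congr rfl
  intro k hk
  have hk' : k < D := mem_range.1 hk
  have h1 : ((D.choose (k + 1) : ℕ) : ℝ) * ((k + 1 : ℕ) : ℝ) = (D.choose k : ℝ) * ((D : ℝ) - k) := by
    have := Nat.choose_succ_right_eq D k
    have h2 : ((D - k : ℕ) : ℝ) = (D : ℝ) - k := by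
      rw [Nat.cast_sub hk'.le]
    rw [← h2]
    exact_mod_cast this
  have h2 := h k hk'
  rw [pow_succ]
  linear_combination (P a D (k + 1) * ψ (k + 1) * (y ^ k * y)) * h1 +
    ((D.choose k : ℝ) * (D - k) * (y ^ k * y)) * h2

lemma ev_add (a : ℝ) (D : ℕ) (y : ℝ) (ψ χ : ℕ → ℝ) :
    ev a D y (fun k => ψ k + χ k) = ev a D y ψ + ev a D y χ := by
  unfold ev
  rw [← sum_add_distrib]
  exact sum_congr rfl fun k _ => by ring

lemma ev_mul (a : ℝ) (D : ℕ) (y : ℝ) (c : ℝ) (ψ : ℕ → ℝ) :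
    ev a D y (fun k => c * ψ k) = c * ev a D y ψ := by
  unfold ev
  rw [mul_sum]
  exact sum_congr rfl fun k _ => by ring

lemma ev_congr (a : ℝ) (D : ℕ) (y : ℝ) {ψ χ : ℕ → ℝ} (h : ∀ k ≤ D, ψ k = χ k) :
    ev a D y ψ = ev a D y χ := by
  unfold ev
  apply sum_congr rfl
  intro k hk
  rw [h k (Nat.lt_succ_iff.1 (mem_range.1 hk))]

section
variable {a : ℝ} {D : ℕ} (ha : (D : ℝ) - 1 < a)
include ha

lemma den_pos {k : ℕ} (hk : k ≤ D) (p : ℕ) (hp : 1 ≤ p) : 0 < a + p - k := by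
  have h1 : (k : ℝ) ≤ D := by exact_mod_cast hk
  have h2 : (1 : ℝ) ≤ p := by exact_mod_cast hp
  linarith

/-- the recurrence of the `E_p` -/
lemma E_rec (y : ℝ) {p : ℕ} (hp : 1 ≤ p) (hpD : p ≤ D) :
    (D + 1 - p) * ((a + 1) * E a D y 1 - (a + p + 1) * E a D y (p + 1)) =
      p * y * ((a + 1) * E a D y (D + 1) + (D - a - p) * E a D y p) := by
  have h := ev_shift a D y (fun k => 1 / ((a + 1 - k) * (a + p + 1 - k)))
    (fun k => 1 / ((a + D + 1 - k) * (a + p - k))) (by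
      intro k hk
      have h1 := P_succ (a := a) (D := D) k
      have h2 : (a : ℝ) - k ≠ 0 := by
        have : (k : ℝ) + 1 ≤ D := by exact_mod_cast hk
        intro h0; linarith
      have h3 := (den_pos ha hk.le p hp).ne'
      have h4 : a + D + 1 - k ≠ 0 := by
        have := (den_pos ha hk.le (D + 1) (by omega)).ne'
        push_cast at this
        rwa [← add_assoc] at this
      have h5 : (a + 1 - ((k + 1 : ℕ) : ℝ)) = a - k := by push_cast; ring
      have h6 : (a + p + 1 - ((k + 1 : ℕ) : ℝ)) = a + p - k := by push_cast; ring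
      rw [h5, h6]
      field_simp
      linear_combination h1)
  have hp0 : (p : ℝ) ≠ 0 := by positivity
  have hq0 : (D : ℝ) + 1 - p ≠ 0 := by
    have : (p : ℝ) ≤ D := by exact_mod_cast hpD
    intro h0; linarith
  have e1 : ev a D y (fun k => (k : ℝ) * (1 / ((a + 1 - k) * (a + p + 1 - k)))) =
      ((a + 1) / p) * E a D y 1 + (-((a + p + 1) / p)) * E a D y (p + 1) := by
    unfold E
    rw [← ev_mul, ← ev_mul, ← ev_add]
    apply ev_congr
    intro k hk
    have h1 : a + 1 - k ≠ 0 := by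
      have := (den_pos ha hk 1 le_rfl).ne'
      simpa using this
    have h2 : a + p + 1 - k ≠ 0 := by
      have := (den_pos ha hk (p + 1) (by omega)).ne'
      push_cast at this
      rwa [← add_assoc] at this
    have h3 : a + ((1 : ℕ) : ℝ) - k = a + 1 - k := by simp
    have h4 : a + ((p + 1 : ℕ) : ℝ) - k = a + p + 1 - k := by push_cast; ring
    rw [h3, h4]
    field_simp
    ring
  have e2 : ev a D y (fun k => ((D : ℝ) - k) * (1 / ((a + D + 1 - k) * (a + p - k)))) =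
      ((a + 1) / (D + 1 - p)) * E a D y (D + 1) + ((D - a - p) / (D + 1 - p)) * E a D y p := by
    unfold E
    rw [← ev_mul, ← ev_mul, ← ev_add]
    apply ev_congr
    intro k hk
    have h1 := (den_pos ha hk p hp).ne'
    have h2 : a + D + 1 - k ≠ 0 := by
      have := (den_pos ha hk (D + 1) (by omega)).ne'
      push_cast at this
      rwa [← add_assoc] at this
    have h4 : a + ((D + 1 : ℕ) : ℝ) - k = a + D + 1 - k := by push_cast; ring
    rw [h4]
    field_simp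
    ring
  rw [e1, e2] at h
  field_simp at h
  linear_combination h

end

end Pool.Agent.KS6_69.Toric
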