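import Mathlib

set_option autoImplicit false

open Polynomial

namespace Pool.Agent.KS6_69.Toric

/-! ### Good polynomials -/

/-- degree at most `D`, nonzero at `0`, and all complex roots real and nonpositive -/
structure Good (D : ℕ) (f : ℝ[X]) : Prop where
  deg : f.natDegree ≤ D
  zero : f.eval 0 ≠ 0
  im : ∀ z : ℂ, aeval z f = 0 → z.im = 0
  re : ∀ z : ℂ, aeval z f = 0 → z.re ≤ 0

/-- the operator `a - X d/dX` -/
noncomputable def T (a : ℝ) (f : ℝ[X]) : ℝ[X] := C a * f - X * derivative f

lemma coeff_T (a : ℝ) (f : ℝ[X]) (k : ℕ) : (T a f).coeff k = (a - k) * f.coeff k := by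
  unfold T
  rw [coeff_sub, coeff_C_mul]
  cases k with
  | zero => simp
  | succ k =>
    rw [coeff_X_mul, coeff_derivative]
    push_cast
    ring

lemma aeval_T (a : ℝ) (f : ℝ[X]) (z : ℂ) :
    aeval z (T a f) = a * aeval z f - z * aeval z (derivative f) := by
  unfold T
  simp

lemma good_T {D : ℕ} {a : ℝ} (ha : (D : ℝ) ≤ a) (ha0 : 0 < a) {f : ℝ[X]} (hf : Good D f) :
    Good D (T a f) := by
  have hne : f ≠ 0 := by
    rintro rfl
    exact hf.zero (by simp)
  set F : ℂ[X] := f.map (algebraMap ℝ ℂ) with hF
  have hFne : F ≠ 0 := by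
    rw [hF, Ne, Polynomial.map_eq_zero]
    exact hne
  have hev : ∀ z : ℂ, F.eval z = aeval z f := fun z => by
    rw [hF, eval_map_algebraMap]
  have hev' : ∀ z : ℂ, F.derivative.eval z = aeval z (derivative f) := fun z => by
    rw [hF, derivative_map, eval_map_algebraMap]
  have hroot : ∀ ρ ∈ F.roots, ρ.im = 0 ∧ ρ.re < 0 := by
    intro ρ hρ
    rw [mem_roots hFne, IsRoot.def, hev] at hρ
    have h1 := hf.im ρ hρ
    have h2 := hf.re ρ hρ
    refine ⟨h1, lt_of_le_of_ne h2 ?_⟩
    intro h3
    apply hf.zero
    have : ρ = 0 := Complex.ext h3 h1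
    rw [this] at hρ
    have h4 : aeval (0 : ℂ) f = ((f.eval 0 : ℝ) : ℂ) := by
      have := aeval_algebraMap_apply ℂ (0 : ℝ) f
      rw [map_zero] at this
      rw [this]
      rfl
    rw [h4] at hρ
    exact_mod_cast hρ
  have hcard : (Multiset.card F.roots : ℝ) ≤ a := by
    refine le_trans ?_ ha
    have h1 := F.card_roots'
    have h2 : F.natDegree ≤ D := by
      rw [hF, natDegree_map]
      exact hf.deg
    exact_mod_cast le_trans h1 h2
  -- the key computation at a root of `T a f` that is not a root of `f`
  have key : ∀ z : ℂ, aeval z (T a f) = 0 → aeval z f ≠ 0 →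
      (F.roots.map fun ρ => z / (z - ρ)).sum = a := by
    intro z hz hzf
    rw [aeval_T] at hz
    have h1 := (IsAlgClosed.splits F).eval_derivative_div_eval_of_ne_zero (x := z)
      (by rw [hev]; exact hzf)
    have h2 : (F.roots.map fun ρ => z / (z - ρ)).sum = z * (F.roots.map fun ρ => 1 / (z - ρ)).sum := by
      rw [← Multiset.sum_map_mul_left]
      congr 1
      apply Multiset.map_congr rfl
      intro ρ _
      ring
    rw [h2, ← h1, hev, hev']
    field_simp
    linear_combination -hz
  have hz0 : ∀ z : ℂ, ∀ ρ ∈ F.roots, (z / (z - ρ)).im = -ρ.re * z.im / Complex.normSq (z - ρ) := by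
    intro z ρ hρ
    rw [Complex.div_im]
    simp only [Complex.sub_re, Complex.sub_im, (hroot ρ hρ).1]
    ring
  have him : ∀ z : ℂ, aeval z (T a f) = 0 → z.im = 0 := by
    intro z hz
    by_cases hzf : aeval z f = 0
    · exact hf.im z hzf
    have h := key z hz hzf
    by_contra him
    have h1 : ((F.roots.map fun ρ => z / (z - ρ)).sum).im = 0 := by
      rw [h]; simp
    have h2 : ((F.roots.map fun ρ => z / (z - ρ)).sum).im =
        z.im * (F.roots.map fun ρ => -ρ.re / Complex.normSq (z - ρ)).sum := by
      rw [← Multiset.sum_map_mul_left]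
      have h3 : ((F.roots.map fun ρ => z / (z - ρ)).sum).im =
          (F.roots.map fun ρ => (z / (z - ρ)).im).sum := by
        have := map_multiset_sum Complex.imAddGroupHom (F.roots.map fun ρ => z / (z - ρ))
        rw [Multiset.map_map] at this
        exact this
      rw [h3]
      congr 1
      apply Multiset.map_congr rfl
      intro ρ hρ
      rw [hz0 z ρ hρ]
      ring
    rw [h2] at h1
    have h3 : (F.roots.map fun ρ => -ρ.re / Complex.normSq (z - ρ)).sum = 0 := by
      rcases mul_eq_zero.mp h1 with h | h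
      · exact absurd h him
      · exact h
    have h4 : F.roots = 0 := by
      by_contra hne0
      obtain ⟨ρ, hρ⟩ := Multiset.exists_mem_of_ne_zero hne0
      have hposσ : ∀ σ ∈ F.roots, 0 < -σ.re / Complex.normSq (z - σ) := by
        intro σ hσ
        have hs := (hroot σ hσ)
        apply div_pos (by linarith [hs.2])
        rw [Complex.normSq_pos]
        intro h0
        apply him
        have := congrArg Complex.im h0
        simp only [Complex.sub_im, Complex.zero_im, hs.1, sub_zero] at this
        exact this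
      have hpos : (F.roots.map fun _ => (0 : ℝ)).sum <
          (F.roots.map fun ρ => -ρ.re / Complex.normSq (z - ρ)).sum :=
        Multiset.sum_lt_sum (fun i hi => (hposσ i hi).le) ⟨ρ, hρ, hposσ ρ hρ⟩
      rw [Multiset.map_const', Multiset.sum_replicate, smul_zero] at hpos
      linarith
    rw [h4] at h
    simp only [Multiset.map_zero, Multiset.sum_zero] at h
    have : (a : ℂ) ≠ 0 := by exact_mod_cast ha0.ne'
    exact this h.symm
  refine ⟨?_, ?_, him, ?_⟩
  · rw [natDegree_le_iff_coeff_eq_zero]
    intro N hN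
    rw [coeff_T, coeff_eq_zero_of_natDegree_lt (lt_of_le_of_lt hf.deg hN), mul_zero]
  · have h1 : (T a f).eval 0 = a * f.eval 0 := by
      unfold T; simp
    rw [h1]
    exact mul_ne_zero ha0.ne' hf.zero
  · intro z hz
    by_cases hzf : aeval z f = 0
    · exact hf.re z hzf
    by_contra hre
    push Not at hre
    have h := key z hz hzf
    have hzim := him z hz
    have h3 : ((F.roots.map fun ρ => z / (z - ρ)).sum).re =
        (F.roots.map fun ρ => (z / (z - ρ)).re).sum := by
      have := map_multiset_sum Complex.reAddGroupHom (F.roots.map fun ρ => z / (z - ρ))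
      rw [Multiset.map_map] at this
      exact this
    have h5 : ∀ ρ ∈ F.roots, (z / (z - ρ)).re < 1 := by
      intro ρ hρ
      have hr := hroot ρ hρ
      have hz' : z = (z.re : ℂ) := Complex.ext (by simp) (by simp [hzim])
      have hρ' : ρ = (ρ.re : ℂ) := Complex.ext (by simp) (by simp [hr.1])
      rw [hz', hρ', ← Complex.ofReal_sub, ← Complex.ofReal_div, Complex.ofReal_re]
      rw [div_lt_one (by linarith [hr.2])]
      linarith [hr.2]
    have h6 : a = (F.roots.map fun ρ => (z / (z - ρ)).re).sum := by
      rw [← h3, h]; simp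
    by_cases h0 : F.roots = 0
    · rw [h0] at h6
      simp at h6
      linarith
    · have h7 : (F.roots.map fun ρ => (z / (z - ρ)).re).sum <
          (F.roots.map fun _ => (1 : ℝ)).sum := by
        obtain ⟨ρ, hρ⟩ := Multiset.exists_mem_of_ne_zero h0
        exact Multiset.sum_lt_sum (fun i hi => (h5 i hi).le) ⟨ρ, hρ, h5 ρ hρ⟩
      rw [Multiset.map_const', Multiset.sum_replicate, nsmul_eq_mul, mul_one] at h7
      linarith

/-! ### Products of operators -/

/-- apply `T (s 0)`, then `T (s 1)`, ..., then `T (s (L - 1))` -/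
noncomputable def ops (s : ℕ → ℝ) : ℕ → ℝ[X] → ℝ[X]
  | 0, f => f
  | L + 1, f => T (s L) (ops s L f)

lemma coeff_ops (s : ℕ → ℝ) (L : ℕ) (f : ℝ[X]) (k : ℕ) :
    (ops s L f).coeff k = (∏ l ∈ Finset.range L, (s l - k)) * f.coeff k := by
  induction L with
  | zero => simp [ops]
  | succ L ih =>
    rw [ops, coeff_T, ih, Finset.prod_range_succ]
    ring

lemma good_ops {D : ℕ} (s : ℕ → ℝ) (L : ℕ) (hs : ∀ l < L, (D : ℝ) ≤ s l ∧ 0 < s l) {f : ℝ[X]}
    (hf : Good D f) : Good D (ops s L f) := by
  induction L with
  | zero => exact hf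
  | succ L ih =>
    exact good_T (hs L (Nat.lt_succ_self L)).1 (hs L (Nat.lt_succ_self L)).2
      (ih fun l hl => hs l (Nat.lt_succ_of_lt hl))

lemma good_base (D : ℕ) : Good D ((1 + X) ^ D) where
  deg := by
    have h : (1 + X : ℝ[X]).natDegree ≤ 1 := by
      compute_degree
    have := natDegree_pow_le_of_le D h
    simpa using this
  zero := by simp
  im := by
    intro z hz
    simp only [map_pow, map_add, map_one, aeval_X] at hz
    have h0 : (1 + z) = 0 := by
      by_contra hne
      exact pow_ne_zero D hne hz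
    have : z = -1 := by linear_combination h0
    rw [this]; simp
  re := by
    intro z hz
    simp only [map_pow, map_add, map_one, aeval_X] at hz
    have h0 : (1 + z) = 0 := by
      by_contra hne
      exact pow_ne_zero D hne hz
    have : z = -1 := by linear_combination h0
    rw [this]; simp


end Pool.Agent.KS6_69.Toric
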