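import Pool.Agent.KS6_69.Toric.Ev

set_option autoImplicit false

namespace Pool.Agent.KS6_69.Toric

open Finset Polynomial

/-- coefficients of `H`: `binom(D,k) prod_{l=1}^{D} (a + l - k)` -/
noncomputable def hc (a : ℝ) (D : ℕ) (k : ℕ) : ℝ :=
  (D.choose k : ℝ) * P a D k * (1 / (a + ((D + 1 : ℕ) : ℝ) - k))

/-- the polynomial `H` -/
noncomputable def H (a : ℝ) (D : ℕ) : ℝ[X] := ∑ k ∈ range (D + 1), C (hc a D k) * X ^ k

lemma H_eval (a : ℝ) (D : ℕ) (y : ℝ) : (H a D).eval y = E a D y (D + 1) := by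
  unfold H E ev W hc
  rw [eval_finsetSum]
  apply sum_congr rfl
  intro k _
  simp only [eval_mul, eval_C, eval_pow, eval_X]
  ring

lemma H_coeff (a : ℝ) (D : ℕ) (k : ℕ) : (H a D).coeff k = if k ≤ D then hc a D k else 0 := by
  unfold H
  rw [finsetSum_coeff]
  simp only [coeff_C_mul, coeff_X_pow, mul_ite, mul_one, mul_zero]
  rw [Finset.sum_ite_eq]
  simp

lemma H_deriv_eval (a : ℝ) (D : ℕ) (y : ℝ) :
    y * (derivative (H a D)).eval y = ev a D y (fun k => k * (1 / (a + ((D + 1 : ℕ) : ℝ) - k))) := by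
  unfold H ev W hc
  rw [derivative_sum, eval_finsetSum, mul_sum]
  apply sum_congr rfl
  intro k _
  rw [derivative_C_mul_X_pow]
  simp only [eval_mul, eval_C, eval_pow, eval_X]
  rcases k with _ | k
  · simp
  · rw [Nat.add_sub_cancel, pow_succ]
    ring

section
variable {a : ℝ} {D : ℕ} (ha : (D : ℝ) - 1 < a)
include ha

lemma hc_pos {k : ℕ} (hk : k ≤ D) : 0 < hc a D k := by
  unfold hc
  have h1 := P_pos ha hk
  have h2 := den_pos ha hk (D + 1) (by omega)
  have h3 : 0 < (D.choose k : ℝ) := by exact_mod_cast Nat.choose_pos hk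
  positivity

lemma hc_rec {k : ℕ} (hk : k < D) :
    (a + D - k) * (k + 1) * hc a D (k + 1) = (D - k) * (a - k) * hc a D k := by
  unfold hc
  have h1 : ((D.choose (k + 1) : ℕ) : ℝ) * ((k + 1 : ℕ) : ℝ) = (D.choose k : ℝ) * ((D : ℝ) - k) := by
    have := Nat.choose_succ_right_eq D k
    have h2 : ((D - k : ℕ) : ℝ) = (D : ℝ) - k := by
      rw [Nat.cast_sub hk.le]
    rw [← h2]
    exact_mod_cast this
  have h2 := P_succ (a := a) (D := D) k
  have h3 : a + D - k ≠ 0 := by
    have h0 : (k : ℝ) + 1 ≤ D := by exact_mod_cast hk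
    have h1 : (0 : ℝ) ≤ k := by positivity
    intro h; linarith
  have h4 : a + (D + 1) - k ≠ 0 := by
    have := (den_pos ha hk.le (D + 1) (by omega)).ne'
    push_cast at this
    exact this
  have h5 : a + ((D + 1 : ℕ) : ℝ) - ((k + 1 : ℕ) : ℝ) = a + D - k := by push_cast; ring
  have h6 : a + ((D + 1 : ℕ) : ℝ) - (k : ℝ) = a + (D + 1) - k := by push_cast; ring
  rw [h5, h6]
  field_simp
  push_cast at h1
  linear_combination (P a D (k + 1) * (a + (D + 1) - k)) * h1 +
    ((D.choose k : ℝ) * (D - k)) * h2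

/-- `(a+1) E_1 = (-y - 1) y H'(y)` at a root `y` of `H` -/
lemma E_one {y : ℝ} (hy : (H a D).eval y = 0) :
    (a + 1) * E a D y 1 = (-y - 1) * (y * (derivative (H a D)).eval y) := by
  set A := ev a D y (fun k => 1 / ((a + 1 - k) * (a + D + 1 - k))) with hA
  set B := ev a D y (fun k => k * (1 / ((a + 1 - k) * (a + D + 1 - k)))) with hB
  set Q := ev a D y (fun k => (k : ℝ) ^ 2 * (1 / ((a + 1 - k) * (a + D + 1 - k)))) with hQ
  have d1 : ∀ k ≤ D, a + 1 - (k : ℝ) ≠ 0 := by
    intro k hk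
    have := (den_pos ha hk 1 le_rfl).ne'
    simpa using this
  have d2 : ∀ k ≤ D, a + D + 1 - (k : ℝ) ≠ 0 := by
    intro k hk
    have := (den_pos ha hk (D + 1) (by omega)).ne'
    push_cast at this
    rwa [← add_assoc] at this
  have c4 : ∀ k : ℕ, a + ((D + 1 : ℕ) : ℝ) - (k : ℝ) = a + D + 1 - k := by
    intro k; push_cast; ring
  have e1 : (a + 1) * A + (-1) * B = 0 := by
    rw [← hy, H_eval, hA, hB, ← ev_mul, ← ev_mul, ← ev_add]
    unfold E
    apply ev_congr
    intro k hk
    have h1 := d1 k hk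
    have h2 := d2 k hk
    rw [c4]
    field_simp
    ring
  have e2 : E a D y 1 = (a + D + 1) * A + (-1) * B := by
    rw [hA, hB, ← ev_mul, ← ev_mul, ← ev_add]
    unfold E
    apply ev_congr
    intro k hk
    have h1 := d1 k hk
    have h2 := d2 k hk
    rw [Nat.cast_one]
    field_simp
    ring
  have e3 : y * (derivative (H a D)).eval y = (a + 1) * B + (-1) * Q := by
    rw [H_deriv_eval, hB, hQ, ← ev_mul, ← ev_mul, ← ev_add]
    apply ev_congr
    intro k hk
    have h1 := d1 k hk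
    have h2 := d2 k hk
    rw [c4]
    field_simp
    ring
  have h := ev_shift a D y (fun k => 1 / (a + 1 - k)) (fun k => 1 / (a + D + 1 - k)) (by
      intro k hk
      have h1 := P_succ (a := a) (D := D) k
      have h2 : (a : ℝ) - k ≠ 0 := by
        have : (k : ℝ) + 1 ≤ D := by exact_mod_cast hk
        intro h0; linarith
      have h4 := d2 k hk.le
      have h5 : (a + 1 - ((k + 1 : ℕ) : ℝ)) = a - k := by push_cast; ring
      rw [h5]
      field_simp
      linear_combination h1)
  have e4 : ev a D y (fun k => (k : ℝ) * (1 / (a + 1 - k))) = (a + D + 1) * B + (-1) * Q := by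
    rw [hB, hQ, ← ev_mul, ← ev_mul, ← ev_add]
    apply ev_congr
    intro k hk
    have h1 := d1 k hk
    have h2 := d2 k hk
    field_simp
    ring
  have e5 : ev a D y (fun k => ((D : ℝ) - k) * (1 / (a + D + 1 - k))) =
      D * (H a D).eval y + (-1) * (y * (derivative (H a D)).eval y) := by
    rw [H_eval, H_deriv_eval]
    unfold E
    rw [← ev_mul, ← ev_mul, ← ev_add]
    apply ev_congr
    intro k hk
    have h2 := d2 k hk
    rw [c4]
    field_simp
    ring
  rw [e4, e5, hy] at h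
  rw [e2]
  set Z := y * (derivative (H a D)).eval y with hZ
  linear_combination (a + D + 1) * e1 + h + e3
end

end Pool.Agent.KS6_69.Toric
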