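import Mathlib

set_option autoImplicit false

namespace Pool.Agent.KS6_69.Toric

open Finset Polynomial

/-- coefficients nonnegative and with decreasing ratios -/
structure LC (p : ℝ[X]) : Prop where
  nn : ∀ i, 0 ≤ p.coeff i
  lc : ∀ i j, i ≤ j → p.coeff i * p.coeff (j + 1) ≤ p.coeff (i + 1) * p.coeff j

lemma LC_C {c : ℝ} (hc : 0 ≤ c) : LC (C c) where
  nn := by
    intro i
    rw [coeff_C]
    split_ifs
    · exact hc
    · exact le_rfl
  lc := by
    intro i j _
    rw [coeff_C_succ, coeff_C_succ]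
    simp

lemma coeff_mul_X_sub_C' (p : ℝ[X]) (σ : ℝ) (i : ℕ) :
    ((X - C σ) * p).coeff (i + 1) = p.coeff i + (-σ) * p.coeff (i + 1) := by
  rw [sub_mul, coeff_sub, coeff_X_mul, coeff_C_mul]
  ring

lemma coeff_mul_X_sub_C_zero (p : ℝ[X]) (σ : ℝ) :
    ((X - C σ) * p).coeff 0 = (-σ) * p.coeff 0 := by
  rw [sub_mul, coeff_sub, coeff_X_mul_zero, coeff_C_mul]
  ring

lemma LC_mul {p : ℝ[X]} (hp : LC p) {σ : ℝ} (hσ : σ ≤ 0) : LC ((X - C σ) * p) where
  nn := by
    intro i
    rcases i with _ | i
    · rw [coeff_mul_X_sub_C_zero]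
      exact mul_nonneg (by linarith) (hp.nn 0)
    · rw [coeff_mul_X_sub_C']
      exact add_nonneg (hp.nn i) (mul_nonneg (by linarith) (hp.nn _))
  lc := by
    intro i j hij
    have hη : 0 ≤ -σ := by linarith
    set η := -σ with hηdef
    rcases i with _ | i
    · rcases j with _ | j
      · rw [coeff_mul_X_sub_C_zero, coeff_mul_X_sub_C', mul_comm]
      · rw [coeff_mul_X_sub_C_zero, coeff_mul_X_sub_C', coeff_mul_X_sub_C', coeff_mul_X_sub_C',
          ← hηdef]
        have h1 := hp.lc 0 (j + 1) (by omega)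
        have h2 := hp.lc 0 j (by omega)
        have n0 := hp.nn 0
        have n1 := hp.nn 1
        have nj := hp.nn j
        have nj1 := hp.nn (j + 1)
        have nj2 := hp.nn (j + 2)
        simp only [zero_add] at *
        have h3 : η * η * (p.coeff 0 * p.coeff (j + 1 + 1)) ≤ η * η * (p.coeff 1 * p.coeff (j + 1)) :=
          mul_le_mul_of_nonneg_left h1 (mul_nonneg hη hη)
        nlinarith [mul_nonneg n0 nj, mul_nonneg hη (mul_nonneg n1 nj)]
    · rcases j with _ | j
      · omega
      · rw [coeff_mul_X_sub_C', coeff_mul_X_sub_C', coeff_mul_X_sub_C', coeff_mul_X_sub_C', ← hηdef]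
        rcases Nat.eq_or_lt_of_le hij with h | h
        · have : i = j := by omega
          subst this
          exact le_of_eq (by ring)
        have h1 := hp.lc i j (by omega)
        have h2 := hp.lc (i + 1) (j + 1) (by omega)
        have h3 := hp.lc i (j + 1) (by omega)
        have h4 := hp.lc (i + 1) j (by omega)
        have h5 : η * (p.coeff i * p.coeff (j + 1 + 1)) ≤ η * (p.coeff (i + 1 + 1) * p.coeff j) :=
          mul_le_mul_of_nonneg_left (h3.trans h4) hη
        have h6 : η * η * (p.coeff (i + 1) * p.coeff (j + 1 + 1)) ≤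
            η * η * (p.coeff (i + 1 + 1) * p.coeff (j + 1)) :=
          mul_le_mul_of_nonneg_left h2 (mul_nonneg hη hη)
        nlinarith

lemma LC_prod (s : Multiset ℝ) (hs : ∀ σ ∈ s, σ ≤ 0) : LC (s.map fun σ => (X - C σ : ℝ[X])).prod := by
  induction s using Multiset.induction_on with
  | empty =>
    rw [Multiset.map_zero, Multiset.prod_zero]
    exact LC_C zero_le_one
  | cons σ s ih =>
    rw [Multiset.map_cons, Multiset.prod_cons]
    exact LC_mul (ih fun τ hτ => hs τ (Multiset.mem_cons_of_mem hτ)) (hs σ (Multiset.mem_cons_self σ s))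

lemma LC_C_mul {p : ℝ[X]} (hp : LC p) {c : ℝ} (hc : 0 ≤ c) : LC (C c * p) where
  nn := by
    intro i
    rw [coeff_C_mul]
    exact mul_nonneg hc (hp.nn i)
  lc := by
    intro i j hij
    simp only [coeff_C_mul]
    have h1 := hp.lc i j hij
    have h2 : c * c * (p.coeff i * p.coeff (j + 1)) ≤ c * c * (p.coeff (i + 1) * p.coeff j) :=
      mul_le_mul_of_nonneg_left h1 (mul_nonneg hc hc)
    linarith

lemma coeff_pos_prod (s : Multiset ℝ) (hs : ∀ σ ∈ s, σ < 0) :
    ∀ i ≤ Multiset.card s, 0 < (s.map fun σ => (X - C σ : ℝ[X])).prod.coeff i := by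
  induction s using Multiset.induction_on with
  | empty =>
    intro i hi
    rw [Multiset.card_zero, Nat.le_zero] at hi
    subst hi
    simp
  | cons σ s ih =>
    intro i hi
    rw [Multiset.card_cons] at hi
    have h1 := ih fun τ hτ => hs τ (Multiset.mem_cons_of_mem hτ)
    have h2 := hs σ (Multiset.mem_cons_self σ s)
    have h3 := (LC_prod s fun τ hτ => (hs τ (Multiset.mem_cons_of_mem hτ)).le).nn
    rw [Multiset.map_cons, Multiset.prod_cons]
    rcases i with _ | i
    · rw [coeff_mul_X_sub_C_zero]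
      exact mul_pos (by linarith) (h1 0 (Nat.zero_le _))
    · rw [coeff_mul_X_sub_C']
      have h4 := h1 i (by omega)
      have h5 := mul_nonneg (by linarith : (0 : ℝ) ≤ -σ) (h3 (i + 1))
      linarith

lemma eval_pos_prod (s : Multiset ℝ) {t : ℝ} (hs : ∀ σ ∈ s, σ < t) :
    0 < (s.map fun σ => (X - C σ : ℝ[X])).prod.eval t := by
  induction s using Multiset.induction_on with
  | empty => simp
  | cons σ s ih =>
    rw [Multiset.map_cons, Multiset.prod_cons, eval_mul]
    apply mul_pos
    · simp only [eval_sub, eval_X, eval_C]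
      linarith [hs σ (Multiset.mem_cons_self σ s)]
    · exact ih fun τ hτ => hs τ (Multiset.mem_cons_of_mem hτ)

end Pool.Agent.KS6_69.Toric
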