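import Pool.Agent.KS6_69.Toric.Sign

set_option autoImplicit false

namespace Pool.Agent.KS6_69.Toric

open Finset Polynomial

section
variable {a : ℝ} {D : ℕ} (ha : (D : ℝ) - 1 < a)
include ha

lemma E_sign {y : ℝ} (hy : (H a D).eval y = 0) (hE : E a D y 1 ≠ 0) :
    (∀ p, 1 ≤ p → p ≤ D → 0 < E a D y p * E a D y 1) ∧
    (∀ p, 1 ≤ p → p ≤ D → E a D y (p + 1) * E a D y 1 < E a D y p * E a D y 1) := by
  obtain ⟨K, hK, hLC, hpos, hKD, -⟩ := exists_K ha hy
  have hf := E_formula ha hy hK hKD
  have hE2 : 0 < E a D y 1 ^ 2 := by positivity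
  have ha1 : 0 < a + 1 := by
    have : (0 : ℝ) ≤ D := by positivity
    linarith
  have h1 : ∀ p, 1 ≤ p → p ≤ D → 0 < E a D y p * E a D y 1 := by
    intro p hp hpD
    have h2 := hf p hp (D - p) (by omega)
    have h3 := hpos (D - p) (by omega)
    have h4 := hc_pos ha (k := D - p + 1) (by omega)
    have h5 : 0 < a + p := by
      have h0 : (1 : ℝ) ≤ p := by exact_mod_cast hp
      linarith
    have h6 : 0 < (a + p) * hc a D (D - p + 1) * (E a D y p * E a D y 1) := by
      have : (a + p) * hc a D (D - p + 1) * (E a D y p * E a D y 1) =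
          (a + 1) * K.coeff (D - p) * E a D y 1 ^ 2 := by
        linear_combination (E a D y 1) * h2
      rw [this]
      positivity
    exact pos_of_mul_pos_right h6 (by positivity)
  refine ⟨h1, ?_⟩
  intro p hp hpD
  have hu := h1 p hp hpD
  rcases Nat.lt_or_ge p D with h | h
  · obtain ⟨i, rfl⟩ : ∃ i, D = p + 1 + i := ⟨D - p - 1, by omega⟩
    have f1 := hf p hp (i + 1) (by omega)
    have f2 := hf (p + 1) (by omega) i (by omega)
    have c1 : hc a (p + 1 + i) (i + 1) = K.coeff i + (-y) * K.coeff (i + 1) := by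
      rw [← coeff_mul_X_sub_C', ← hK, H_coeff, if_pos (by omega)]
    have c2 : hc a (p + 1 + i) (i + 1 + 1) = K.coeff (i + 1) + (-y) * K.coeff (i + 1 + 1) := by
      rw [← coeff_mul_X_sub_C', ← hK, H_coeff, if_pos (by omega)]
    have hlc := hLC.lc i (i + 1) (by omega)
    have hyl := H_root_lt ha hy
    have hK2 : K.coeff i * hc a (p + 1 + i) (i + 1 + 1) ≤ K.coeff (i + 1) * hc a (p + 1 + i) (i + 1) := by
      rw [c1, c2]
      have : (-y) * (K.coeff i * K.coeff (i + 1 + 1)) ≤ (-y) * (K.coeff (i + 1) * K.coeff (i + 1)) :=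
        mul_le_mul_of_nonneg_left hlc (by linarith)
      linarith
    have p1 := hc_pos ha (k := i + 1) (by omega)
    have p2 := hc_pos ha (k := i + 1 + 1) (by omega)
    set u := E a (p + 1 + i) y p * E a (p + 1 + i) y 1 with hudef
    set v := E a (p + 1 + i) y (p + 1) * E a (p + 1 + i) y 1 with hvdef
    have g1 : (a + p) * hc a (p + 1 + i) (i + 1 + 1) * u =
        (a + 1) * K.coeff (i + 1) * E a (p + 1 + i) y 1 ^ 2 := by
      rw [hudef]; linear_combination (E a (p + 1 + i) y 1) * f1
    have g2 : (a + p + 1) * hc a (p + 1 + i) (i + 1) * v =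
        (a + 1) * K.coeff i * E a (p + 1 + i) y 1 ^ 2 := by
      rw [hvdef]; push_cast at f2; linear_combination (E a (p + 1 + i) y 1) * f2
    have g3 : (a + p + 1) * v ≤ (a + p) * u := by
      have h7 : (hc a (p + 1 + i) (i + 1) * hc a (p + 1 + i) (i + 1 + 1)) * ((a + p + 1) * v) ≤
          (hc a (p + 1 + i) (i + 1) * hc a (p + 1 + i) (i + 1 + 1)) * ((a + p) * u) := by
        have e1 : (hc a (p + 1 + i) (i + 1) * hc a (p + 1 + i) (i + 1 + 1)) * ((a + p + 1) * v) =
            ((a + 1) * E a (p + 1 + i) y 1 ^ 2) * (K.coeff i * hc a (p + 1 + i) (i + 1 + 1)) := by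
          linear_combination (hc a (p + 1 + i) (i + 1 + 1)) * g2
        have e2 : (hc a (p + 1 + i) (i + 1) * hc a (p + 1 + i) (i + 1 + 1)) * ((a + p) * u) =
            ((a + 1) * E a (p + 1 + i) y 1 ^ 2) * (K.coeff (i + 1) * hc a (p + 1 + i) (i + 1)) := by
          linear_combination (hc a (p + 1 + i) (i + 1)) * g1
        rw [e1, e2]
        exact mul_le_mul_of_nonneg_left hK2 (by positivity)
      exact le_of_mul_le_mul_left h7 (by positivity)
    have h5 : 0 < a + p + 1 := by
      have h0 : (1 : ℝ) ≤ p := by exact_mod_cast hp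
      linarith
    by_contra hcon
    push Not at hcon
    have : (a + p + 1) * u ≤ (a + p + 1) * v := mul_le_mul_of_nonneg_left hcon h5.le
    linarith
  · have : p = D := by omega
    subst this
    rw [← H_eval, hy, zero_mul]
    exact hu

lemma E_lt {y : ℝ} (hy : (H a D).eval y = 0) (hE : E a D y 1 ≠ 0) {p : ℕ} (hp : 1 ≤ p) :
    ∀ q, p < q → q ≤ D + 1 → E a D y q * E a D y 1 < E a D y p * E a D y 1 := by
  obtain ⟨-, h⟩ := E_sign ha hy hE
  intro q hq
  induction q, hq using Nat.le_induction with
  | base => intro h1; exact h p hp (by omega)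
  | succ q hq ih =>
    intro h1
    exact (h q (by omega) (by omega)).trans (ih (by omega))

end

lemma expand (s t : ℕ → ℝ) (h : ∀ q r, q ≤ r → s q < t r ∧ t r < s (r + 1)) (r : ℕ) :
    ∃ l : ℕ → ℝ, (∀ q < r + 1, 0 < l q) ∧ ∀ θ : ℝ, (∀ m < r + 1, s m - θ ≠ 0) →
      ∏ i ∈ range r, (t i - θ) = (∏ m ∈ range (r + 1), (s m - θ)) * ∑ q ∈ range (r + 1), l q / (s q - θ) := by
  induction r with
  | zero =>
    refine ⟨fun _ => 1, fun _ _ => one_pos, ?_⟩
    intro θ hθ
    have := hθ 0 (by omega)
    simp [this]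
  | succ r ih =>
    obtain ⟨l, hl, hid⟩ := ih
    set β : ℕ → ℝ := fun q => (t r - s q) / (s (r + 1) - s q) with hβ
    have hβ0 : ∀ q < r + 1, 0 < β q := by
      intro q hq
      obtain ⟨h1, h2⟩ := h q r (by omega)
      exact div_pos (by linarith) (by linarith)
    have hβ1 : ∀ q < r + 1, β q < 1 := by
      intro q hq
      obtain ⟨h1, h2⟩ := h q r (by omega)
      rw [hβ]
      exact (div_lt_one (by linarith)).2 (by linarith)
    refine ⟨fun q => if q = r + 1 then ∑ q ∈ range (r + 1), l q * (1 - β q) else l q * β q, ?_, ?_⟩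
    · intro q hq
      by_cases hqr : q = r + 1
      · simp only [hqr, if_true]
        apply sum_pos
        · intro q hq
          have hq := mem_range.1 hq
          exact mul_pos (hl q hq) (by linarith [hβ1 q hq])
        · exact ⟨0, by simp⟩
      · simp only [hqr, if_false]
        exact mul_pos (hl q (by omega)) (hβ0 q (by omega))
    · intro θ hθ
      rw [prod_range_succ (fun i => t i - θ) r, hid θ (fun m hm => hθ m (by omega)),
        prod_range_succ (fun m => s m - θ) (r + 1)]
      rw [mul_assoc, mul_assoc]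
      congr 1
      rw [sum_range_succ (fun q => (if q = r + 1 then ∑ q ∈ range (r + 1), l q * (1 - β q)
        else l q * β q) / (s q - θ)) (r + 1)]
      simp only [if_true]
      rw [mul_add]
      have hlast := hθ (r + 1) (by omega)
      rw [mul_div_cancel₀ _ hlast, sum_mul, mul_sum, ← sum_add_distrib]
      apply sum_congr rfl
      intro q hq
      have hq := mem_range.1 hq
      have h1 := hθ q (by omega)
      have h2 : q ≠ r + 1 := by omega
      simp only [h2, if_false]
      obtain ⟨h3, h4⟩ := h q r (by omega)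
      have h5 : s (r + 1) - s q ≠ 0 := by intro h0; linarith
      have h6 : β q * (s (r + 1) - s q) = t r - s q := by
        simp only [hβ]
        field_simp
      field_simp
      linear_combination (-(l q)) * h6

end Pool.Agent.KS6_69.Toric
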