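import Pool.Agent.KS6_69.Toric.Sign

set_option autoImplicit false

namespace Pool.Agent.KS6_69.Toric

open Finset Polynomial

lemma nodup_of_simple {H : ℝ[X]} {s : Multiset ℝ} {c : ℝ}
    (hs : H = C c * (s.map fun σ => (X - C σ : ℝ[X])).prod)
    (hsimple : ∀ y, H.eval y = 0 → (derivative H).eval y ≠ 0) : s.Nodup := by
  rw [Multiset.nodup_iff_le]
  intro y hy
  obtain ⟨t, rfl⟩ := Multiset.le_iff_exists_add.1 hy
  have h1 : H = (X - C y) ^ 2 * (C c * (t.map fun σ => (X - C σ : ℝ[X])).prod) := by
    rw [hs]
    simp only [Multiset.map_add, Multiset.prod_add, Multiset.map_cons, Multiset.map_zero,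
      Multiset.prod_cons, Multiset.prod_zero]
    ring
  apply hsimple y
  · rw [h1]; simp
  · rw [h1]
    simp [derivative_mul, derivative_pow]

/-- If `F` has at the roots of `H` the sign opposite to that of `H'`, then it has only real roots. -/
lemma real_of_sign {H F : ℝ[X]} {D : ℕ} (hD : 0 < D) (hHD : H.natDegree = D) (hFD : F.natDegree ≤ D)
    (hHreal : ∀ z : ℂ, aeval z H = 0 → z.im = 0)
    (hsign : ∀ y : ℝ, H.eval y = 0 → F.eval y * (derivative H).eval y < 0) :
    ∀ z : ℂ, aeval z F = 0 → z.im = 0 := by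
  have hH0 : H ≠ 0 := by
    intro h
    rw [h] at hHD
    simp at hHD
    omega
  have hsimple : ∀ y, H.eval y = 0 → (derivative H).eval y ≠ 0 := by
    intro y hy h
    have := hsign y hy
    rw [h, mul_zero] at this
    exact lt_irrefl _ this
  obtain ⟨s, hs, hcard⟩ := exists_multiset hHreal hH0
  have hnodup := nodup_of_simple hs hsimple
  set c := H.leadingCoeff with hc
  have hc0 : c ≠ 0 := leadingCoeff_ne_zero.2 hH0
  set R : Finset ℝ := ⟨s, hnodup⟩ with hR
  have hRcard : R.card = D := by
    rw [← hHD, ← hcard]; rfl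
  set v : ℝ → ℂ := fun x => (x : ℂ) with hv
  have hinj : Set.InjOn v (R : Set ℝ) := fun x _ y _ h => Complex.ofReal_injective h
  set Hc : ℂ[X] := H.map (algebraMap ℝ ℂ) with hHc
  set Fc : ℂ[X] := F.map (algebraMap ℝ ℂ) with hFc
  have hnod : Hc = C (c : ℂ) * Lagrange.nodal R v := by
    rw [hHc]
    conv_lhs => rw [hs]
    rw [Polynomial.map_mul, map_C, Polynomial.map_multiset_prod, Multiset.map_map]
    unfold Lagrange.nodal
    congr 1
    rw [Finset.prod_eq_multiset_prod]
    congr 1
    apply Multiset.map_congr rfl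
    intro x _
    simp [hv]
  have hroot : ∀ x ∈ R, H.eval x = 0 := by
    intro σ hσ
    rw [hs, eval_mul, eval_multiset_prod, Multiset.map_map]
    have : (0 : ℝ) ∈ s.map (eval σ ∘ fun σ => (X - C σ : ℝ[X])) := by
      rw [Multiset.mem_map]
      exact ⟨σ, hσ, by simp⟩
    rw [Multiset.prod_eq_zero this, mul_zero]
  intro z hz
  by_contra him
  have hzR : ∀ x ∈ R, z ≠ v x := by
    rintro x _ rfl
    exact him (by simp [hv])
  have hHz : Hc.eval z ≠ 0 := by
    intro h
    rw [hHc, eval_map_algebraMap] at h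
    exact him (hHreal z h)
  set κ : ℝ := F.coeff D / c with hκ
  have hdeg : (Fc - C (κ : ℂ) * Hc).degree < (R.card : ℕ) := by
    rw [hRcard]
    have h1 : Fc - C (κ : ℂ) * Hc = (F - C κ * H).map (algebraMap ℝ ℂ) := by
      rw [hFc, hHc, Polynomial.map_sub, Polynomial.map_mul, map_C]
      rfl
    rw [h1, degree_map]
    rw [degree_lt_iff_coeff_zero]
    intro m hm
    rw [coeff_sub, coeff_C_mul]
    rcases Nat.eq_or_lt_of_le hm with h | h
    · rw [← h, hκ]
      have : H.coeff D = c := by rw [hc, leadingCoeff, hHD]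
      rw [this]
      field_simp
      ring
    · rw [coeff_eq_zero_of_natDegree_lt (by omega), coeff_eq_zero_of_natDegree_lt (by omega)]
      simp
  have hint := Lagrange.eq_interpolate hinj hdeg
  have hev := congrArg (eval z) hint
  rw [Lagrange.eval_interpolate_not_at_node _ hzR, eval_sub, eval_mul, eval_C] at hev
  have hFz : Fc.eval z = 0 := by rw [hFc, eval_map_algebraMap]; exact hz
  rw [hFz, zero_sub] at hev
  have hnz : (Lagrange.nodal R v).eval z = Hc.eval z / c := by
    rw [hnod, eval_mul, eval_C]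
    have : (c : ℂ) ≠ 0 := by exact_mod_cast hc0
    field_simp
  have hvx : ∀ x : ℝ, Fc.eval (v x) = ((F.eval x : ℝ) : ℂ) := by
    intro x
    rw [hFc, eval_map_algebraMap]
    exact aeval_algebraMap_apply ℂ x F
  have hHvx : ∀ x ∈ R, Hc.eval (v x) = 0 := by
    intro x hx
    rw [hHc, eval_map_algebraMap]
    have : aeval (v x) H = ((H.eval x : ℝ) : ℂ) := aeval_algebraMap_apply ℂ x H
    rw [this, hroot x hx]
    simp
  have hder : ∀ x : ℝ, (derivative (Lagrange.nodal R v)).eval (v x) = (((derivative H).eval x / c : ℝ) : ℂ) := by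
    intro x
    have h1 : derivative Hc = C (c : ℂ) * derivative (Lagrange.nodal R v) := by
      rw [hnod, derivative_C_mul]
    have h2 : (derivative Hc).eval (v x) = (((derivative H).eval x : ℝ) : ℂ) := by
      rw [hHc, derivative_map, eval_map_algebraMap]
      exact aeval_algebraMap_apply ℂ x (derivative H)
    rw [h1, eval_mul, eval_C] at h2
    have : (c : ℂ) ≠ 0 := by exact_mod_cast hc0
    push_cast
    rw [← h2]
    field_simp
  have hsum : (∑ i ∈ R, Lagrange.nodalWeight R v i * (z - v i)⁻¹ * (Fc - C (κ : ℂ) * Hc).eval (v i)) =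
      ∑ x ∈ R, ((c * (F.eval x / (derivative H).eval x) : ℝ) : ℂ) * (z - v x)⁻¹ := by
    apply Finset.sum_congr rfl
    intro x hx
    have hd := hsimple x (hroot x hx)
    rw [Lagrange.nodalWeight_eq_eval_derivative_nodal hx, hder, eval_sub, eval_mul, hvx, hHvx x hx, mul_zero, sub_zero]
    have h1 : (c : ℂ) ≠ 0 := by exact_mod_cast hc0
    have h2 : (((derivative H).eval x : ℝ) : ℂ) ≠ 0 := by exact_mod_cast hd
    push_cast
    field_simp
  rw [hsum, hnz] at hev
  have hc' : (c : ℂ) ≠ 0 := by exact_mod_cast hc0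
  have hmain : -(κ : ℂ) = ∑ x ∈ R, ((F.eval x / (derivative H).eval x : ℝ) : ℂ) * (z - v x)⁻¹ := by
    have h1 : (∑ x ∈ R, ((c * (F.eval x / (derivative H).eval x) : ℝ) : ℂ) * (z - v x)⁻¹) =
        c * ∑ x ∈ R, ((F.eval x / (derivative H).eval x : ℝ) : ℂ) * (z - v x)⁻¹ := by
      rw [Finset.mul_sum]
      apply Finset.sum_congr rfl
      intro x _
      push_cast
      ring
    rw [h1] at hev
    have h2 : Hc.eval z * (-(κ : ℂ)) =
        Hc.eval z * ∑ x ∈ R, ((F.eval x / (derivative H).eval x : ℝ) : ℂ) * (z - v x)⁻¹ := by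
      have : Hc.eval z / c * (c * ∑ x ∈ R, ((F.eval x / (derivative H).eval x : ℝ) : ℂ) * (z - v x)⁻¹) =
        Hc.eval z * ∑ x ∈ R, ((F.eval x / (derivative H).eval x : ℝ) : ℂ) * (z - v x)⁻¹ := by
        field_simp
      rw [← this, ← hev]
      ring
    exact mul_left_cancel₀ hHz h2
  have him2 := congrArg Complex.im hmain
  rw [Complex.im_sum] at him2
  have h3 : (-(κ : ℂ)).im = 0 := by simp
  rw [h3] at him2
  have h4 : ∀ x ∈ R, (((F.eval x / (derivative H).eval x : ℝ) : ℂ) * (z - v x)⁻¹).im =
      z.im * (-(F.eval x / (derivative H).eval x) / Complex.normSq (z - v x)) := by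
    intro x _
    rw [Complex.im_ofReal_mul, Complex.inv_im]
    simp [hv]
    ring
  rw [Finset.sum_congr rfl h4, ← Finset.mul_sum] at him2
  rcases mul_eq_zero.1 him2.symm with h5 | h5
  · exact him h5
  · have h6 : 0 < ∑ x ∈ R, (-(F.eval x / (derivative H).eval x) / Complex.normSq (z - v x)) := by
      apply Finset.sum_pos
      · intro x hx
        have h7 := hsign x (hroot x hx)
        have h8 : F.eval x / (derivative H).eval x < 0 := by
          rcases lt_or_gt_of_ne (hsimple x (hroot x hx)) with h | h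
          · have : 0 < F.eval x := by
              by_contra hc
              push Not at hc
              have := mul_nonneg_of_nonpos_of_nonpos hc h.le
              linarith
            exact div_neg_of_pos_of_neg this h
          · have : F.eval x < 0 := by
              by_contra hc
              push Not at hc
              have := mul_nonneg hc h.le
              linarith
            exact div_neg_of_neg_of_pos this h
        apply div_pos (by linarith)
        rw [Complex.normSq_pos, sub_ne_zero]
        exact hzR x hx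
      · rw [← Finset.card_pos, hRcard]
        exact hD
    exact h6.ne' h5

end Pool.Agent.KS6_69.Toric
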