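import Pool.Agent.KS6_69.Toric.Hpoly
import Pool.Agent.KS6_69.Toric.Good

set_option autoImplicit false

namespace Pool.Agent.KS6_69.Toric

open Finset Polynomial

/-! ### `H` comes from `(1 + X)^D` by the operators -/

lemma H_eq_ops {a : ℝ} {D : ℕ} (ha : (D : ℝ) - 1 < a) :
    H a D = ops (fun l => a + ((l : ℝ) + 1)) D ((1 + X) ^ D) := by
  ext k
  rw [H_coeff, coeff_ops, coeff_one_add_X_pow]
  by_cases hk : k ≤ D
  · rw [if_pos hk]
    unfold hc P
    rw [prod_range_succ]
    have h2 := (den_pos ha hk (D + 1) (by omega)).ne'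
    push_cast at h2 ⊢
    field_simp
  · rw [if_neg hk, Nat.choose_eq_zero_of_lt (by omega)]
    simp

lemma H_good {a : ℝ} {D : ℕ} (ha : (D : ℝ) - 1 < a) : Good D (H a D) := by
  rw [H_eq_ops ha]
  apply good_ops
  · intro l _
    have h1 : (0 : ℝ) ≤ l := by positivity
    have h2 : (0 : ℝ) ≤ D := by positivity
    constructor <;> linarith
  · exact good_base D

/-! ### the variable `x = y + 1` -/

lemma T_comp (b : ℝ) (f : ℝ[X]) :
    (T b f).comp (X - 1) = T b (f.comp (X - 1)) + derivative (f.comp (X - 1)) := by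
  unfold T
  rw [sub_comp, mul_comp, mul_comp, C_comp, X_comp, derivative_comp]
  simp only [derivative_sub, derivative_X, derivative_one, sub_zero]
  ring

lemma coeff_T_comp (b : ℝ) (f : ℝ[X]) (i : ℕ) :
    ((T b f).comp (X - 1)).coeff i =
      (b - i) * (f.comp (X - 1)).coeff i + (f.comp (X - 1)).coeff (i + 1) * (i + 1) := by
  rw [T_comp, coeff_add, coeff_T, coeff_derivative]

lemma ops_comp_nonneg {D : ℕ} (s : ℕ → ℝ) (L : ℕ) (hL : L ≤ D) (hs : ∀ l < L, (D : ℝ) ≤ s l) :
    (∀ i, 0 ≤ ((ops s L ((1 + X) ^ D)).comp (X - 1)).coeff i) ∧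
      0 < ((ops s L ((1 + X) ^ D)).comp (X - 1)).coeff (D - L) ∧
      ∀ i, D < i → ((ops s L ((1 + X) ^ D)).comp (X - 1)).coeff i = 0 := by
  induction L with
  | zero =>
    have h : (ops s 0 ((1 + X) ^ D)).comp (X - 1) = X ^ D := by
      simp [ops]
    rw [h]
    refine ⟨fun i => ?_, ?_, fun i hi => ?_⟩
    · rw [coeff_X_pow]; split_ifs <;> norm_num
    · rw [coeff_X_pow]; simp
    · rw [coeff_X_pow, if_neg (by omega)]
  | succ L ih =>
    obtain ⟨h1, h2, h3⟩ := ih (by omega) (fun l hl => hs l (by omega))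
    have hsL := hs L (Nat.lt_succ_self L)
    have key : ∀ i, 0 ≤ (s L - i) * ((ops s L ((1 + X) ^ D)).comp (X - 1)).coeff i := by
      intro i
      by_cases hi : D < i
      · rw [h3 i hi, mul_zero]
      · have h4 : (i : ℝ) ≤ D := by exact_mod_cast not_lt.1 hi
        exact mul_nonneg (by linarith) (h1 i)
    refine ⟨fun i => ?_, ?_, fun i hi => ?_⟩
    · rw [ops, coeff_T_comp]
      have := h1 (i + 1)
      have h5 := key i
      positivity
    · rw [ops, coeff_T_comp]
      have h5 := key (D - (L + 1))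
      have h6 : D - (L + 1) + 1 = D - L := by omega
      rw [h6]
      have : 0 < ((ops s L ((1 + X) ^ D)).comp (X - 1)).coeff (D - L) * (((D - (L + 1) : ℕ) : ℝ) + 1) := by
        positivity
      linarith
    · rw [ops, coeff_T_comp, h3 i hi, h3 (i + 1) (by omega)]
      simp

lemma eval_pos_of_coeff {q : ℝ[X]} (h : ∀ i, 0 ≤ q.coeff i) (h0 : 0 < q.coeff 0) {x : ℝ}
    (hx : 0 ≤ x) : 0 < q.eval x := by
  rw [eval_eq_sum_range, Finset.sum_range_succ']
  simp only [pow_zero, mul_one]
  have : 0 ≤ ∑ k ∈ range q.natDegree, q.coeff (k + 1) * x ^ (k + 1) :=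
    sum_nonneg fun k _ => mul_nonneg (h _) (pow_nonneg hx _)
  linarith

lemma H_pos {a : ℝ} {D : ℕ} (ha : (D : ℝ) - 1 < a) {y : ℝ} (hy : -1 ≤ y) : 0 < (H a D).eval y := by
  rw [H_eq_ops ha]
  obtain ⟨h1, h2, -⟩ := ops_comp_nonneg (D := D) (fun l => a + ((l : ℝ) + 1)) D le_rfl (by
    intro l _
    have h1 : (0 : ℝ) ≤ l := by positivity
    linarith)
  rw [Nat.sub_self] at h2
  have := eval_pos_of_coeff h1 h2 (x := y + 1) (by linarith)
  rw [eval_comp] at this
  simpa using this

lemma H_root_lt {a : ℝ} {D : ℕ} (ha : (D : ℝ) - 1 < a) {y : ℝ} (hy : (H a D).eval y = 0) : y < -1 := by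
  by_contra h
  exact (H_pos ha (not_lt.1 h)).ne' hy

/-! ### simple roots -/

/-- numerator of `sum_k V_k / (t - k)` -/
noncomputable def Num (D : ℕ) (V : ℕ → ℝ) : ℝ[X] :=
  ∑ k ∈ range (D + 1), C (V k) * ∏ m ∈ (range (D + 1)).erase k, (X - C (m : ℝ))

lemma Num_eval {D : ℕ} (V : ℕ → ℝ) {t : ℝ} (ht : ∀ k ≤ D, t - k ≠ 0) :
    (Num D V).eval t = (∏ m ∈ range (D + 1), (t - m)) * ∑ k ∈ range (D + 1), V k * (1 / (t - k)) := by
  unfold Num
  rw [eval_finsetSum, mul_sum]
  apply sum_congr rfl
  intro k hk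
  rw [eval_mul, eval_C, eval_prod, ← Finset.mul_prod_erase _ _ hk]
  have := ht k (Nat.lt_succ_iff.1 (mem_range.1 hk))
  simp only [eval_sub, eval_X, eval_C]
  field_simp

lemma Num_eval_zero {D : ℕ} (V : ℕ → ℝ) :
    (Num D V).eval 0 = V 0 * ∏ m ∈ (range (D + 1)).erase 0, (0 - (m : ℝ)) := by
  unfold Num
  rw [eval_finsetSum, Finset.sum_eq_single 0]
  · rw [eval_mul, eval_C, eval_prod]
    simp
  · intro k _ hk
    rw [eval_mul, eval_prod]
    have : ∏ m ∈ (range (D + 1)).erase k, eval 0 (X - C (m : ℝ)) = 0 := by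
      apply Finset.prod_eq_zero (i := 0)
      · rw [mem_erase]; exact ⟨hk.symm, by simp⟩
      · simp
    rw [this, mul_zero]
  · simp

lemma natDegree_prod_erase (D k : ℕ) (hk : k ∈ range (D + 1)) :
    (∏ m ∈ (range (D + 1)).erase k, (X - C (m : ℝ)) : ℝ[X]).natDegree = D := by
  rw [natDegree_prod_of_monic _ _ (fun m _ => monic_X_sub_C _)]
  simp only [natDegree_X_sub_C, sum_const, smul_eq_mul, mul_one]
  rw [card_erase_of_mem hk, card_range]
  omega

lemma Num_degree {D : ℕ} (hD : 0 < D) (V : ℕ → ℝ) (hV : ∑ k ∈ range (D + 1), V k = 0) :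
    (Num D V).natDegree < D := by
  have h1 : (Num D V).natDegree ≤ D := by
    unfold Num
    apply natDegree_sum_le_of_forall_le
    intro k hk
    refine (natDegree_C_mul_le _ _).trans ?_
    rw [natDegree_prod_erase D k hk]
  have h2 : (Num D V).coeff D = 0 := by
    unfold Num
    rw [finsetSum_coeff, ← hV]
    apply sum_congr rfl
    intro k hk
    rw [coeff_C_mul]
    have h3 : (∏ m ∈ (range (D + 1)).erase k, (X - C (m : ℝ)) : ℝ[X]).coeff D = 1 := by
      have := (monic_prod_of_monic ((range (D + 1)).erase k) (fun m : ℕ => (X - C (m : ℝ) : ℝ[X]))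
        (fun m _ => monic_X_sub_C _)).coeff_natDegree
      rwa [natDegree_prod_erase D k hk] at this
    rw [h3, mul_one]
  rcases lt_or_eq_of_le h1 with h | h
  · exact h
  · exfalso
    have h4 : (Num D V).leadingCoeff = 0 := by
      unfold leadingCoeff
      rw [h, h2]
    rw [leadingCoeff_eq_zero] at h4
    rw [h4] at h
    simp at h
    omega

/-- a polynomial of degree less than `D` with the `D` zeros `a + 1, …, a + D` vanishes -/
lemma eq_zero_of_zeros {D : ℕ} {a : ℝ} {p : ℝ[X]} (hp : p = 0 ∨ p.natDegree < D)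
    (h : ∀ i, 1 ≤ i → i ≤ D → p.eval (a + i) = 0) : p = 0 := by
  rcases hp with hp | hp
  · exact hp
  · by_contra h0
    have h1 : ((Finset.Icc 1 D).image (fun i : ℕ => a + (i : ℝ))).card = D := by
      rw [card_image_of_injective]
      · simp
      · intro i j hij
        simpa using hij
    have h2 : ((Finset.Icc 1 D).image (fun i : ℕ => a + (i : ℝ))).val ⊆ p.roots := by
      intro t ht
      rw [Finset.mem_val, mem_image] at ht
      obtain ⟨i, hi, rfl⟩ := ht
      rw [mem_Icc] at hi
      rw [mem_roots h0]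
      exact h i hi.1 hi.2
    have h3 := Polynomial.card_le_degree_of_subset_roots h2
    omega

lemma E_eq_Num {a : ℝ} {D : ℕ} (ha : (D : ℝ) - 1 < a) (y : ℝ) {p : ℕ} (hp : 1 ≤ p) :
    (∏ m ∈ range (D + 1), (a + p - m)) * E a D y p = (Num D (W a D y)).eval (a + p) := by
  rw [Num_eval]
  · rfl
  · intro k hk
    exact (den_pos ha hk p hp).ne'

/-- the roots of `H` are simple -/
lemma H_simple {a : ℝ} {D : ℕ} (ha : (D : ℝ) - 1 < a) {y : ℝ}
    (hy : (H a D).eval y = 0) : (derivative (H a D)).eval y ≠ 0 := by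
  intro hd
  have hy1 := H_root_lt ha hy
  have hDa : (0 : ℝ) ≤ D := by positivity
  have hE1 : E a D y 1 = 0 := by
    have := E_one ha hy
    rw [hd] at this
    simp only [mul_zero] at this
    rcases mul_eq_zero.1 this with h | h
    · exfalso; linarith
    · exact h
  have hED : E a D y (D + 1) = 0 := by rw [← H_eval]; exact hy
  have hE : ∀ p, 1 ≤ p → p ≤ D + 1 → E a D y p = 0 := by
    intro p hp
    induction p, hp using Nat.le_induction with
    | base => intro _; exact hE1
    | succ p hp ih =>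
      intro h
      have h1 := E_rec ha y hp (by omega : p ≤ D)
      rw [hE1, hED, ih (by omega)] at h1
      simp only [mul_zero, add_zero, zero_sub] at h1
      have hpD : (p : ℝ) ≤ D := by exact_mod_cast (by omega : p ≤ D)
      have h2 : (D : ℝ) + 1 - p ≠ 0 := by intro h0; linarith
      have h3 : a + p + 1 ≠ 0 := by
        have : (1 : ℝ) ≤ p := by exact_mod_cast hp
        intro h0; linarith
      rcases mul_eq_zero.1 h1 with h | h
      · exact absurd h h2
      · rw [neg_eq_zero] at h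
        rcases mul_eq_zero.1 h with h | h
        · exact absurd h h3
        · exact h
  have hz : Num D (W a D y) = 0 := by
    by_contra h0
    have h1 : ((Finset.Icc 1 (D + 1)).image (fun i : ℕ => a + (i : ℝ))).card = D + 1 := by
      rw [card_image_of_injective]
      · simp
      · intro i j hij
        simpa using hij
    have h2 : ((Finset.Icc 1 (D + 1)).image (fun i : ℕ => a + (i : ℝ))).val ⊆
        (Num D (W a D y)).roots := by
      intro t ht
      rw [Finset.mem_val, mem_image] at ht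
      obtain ⟨i, hi, rfl⟩ := ht
      rw [mem_Icc] at hi
      rw [mem_roots h0, IsRoot.def, ← E_eq_Num ha y hi.1, hE i hi.1 hi.2, mul_zero]
    have h3 := Polynomial.card_le_degree_of_subset_roots h2
    have h4 : (Num D (W a D y)).natDegree ≤ D := by
      unfold Num
      apply natDegree_sum_le_of_forall_le
      intro k hk
      refine (natDegree_C_mul_le _ _).trans ?_
      rw [natDegree_prod_erase D k hk]
    omega
  have h0 := Num_eval_zero (D := D) (W a D y)
  rw [hz, eval_zero] at h0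
  have h1 : W a D y 0 ≠ 0 := by
    unfold W
    have := (P_pos ha (Nat.zero_le D)).ne'
    simpa using this
  have h2 : ∏ m ∈ (range (D + 1)).erase 0, (0 - (m : ℝ)) ≠ 0 := by
    rw [Finset.prod_ne_zero_iff]
    intro m hm
    rw [mem_erase] at hm
    have : (m : ℝ) ≠ 0 := by exact_mod_cast hm.1
    simpa using this
  exact (mul_ne_zero h1 h2) h0.symm

end Pool.Agent.KS6_69.Toric
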