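import Pool.Agent.KS6_69.Toric.Roots
import Pool.Agent.KS6_69.Toric.LC

set_option autoImplicit false

namespace Pool.Agent.KS6_69.Toric

open Finset Polynomial

lemma exists_multiset {p : ℝ[X]} (h : ∀ z : ℂ, aeval z p = 0 → z.im = 0) (hp : p ≠ 0) :
    ∃ s : Multiset ℝ, p = C p.leadingCoeff * (s.map fun σ => (X - C σ : ℝ[X])).prod ∧
      Multiset.card s = p.natDegree := by
  have hinj : Function.Injective (Polynomial.map (algebraMap ℝ ℂ)) :=
    Polynomial.map_injective _ (algebraMap ℝ ℂ).injective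
  set F : ℂ[X] := p.map (algebraMap ℝ ℂ) with hF
  have hFne : F ≠ 0 := by
    rw [hF, Ne, Polynomial.map_eq_zero]
    exact hp
  have hs := (IsAlgClosed.splits F)
  have h1 := hs.eq_prod_roots
  have hroot : ∀ z ∈ F.roots, ((z.re : ℝ) : ℂ) = z := by
    intro z hz
    rw [mem_roots hFne, IsRoot.def, hF, eval_map_algebraMap] at hz
    apply Complex.ext
    · simp
    · simp [h z hz]
  refine ⟨F.roots.map Complex.re, ?_, ?_⟩
  · apply hinj
    rw [← hF, Polynomial.map_mul, map_C, Polynomial.map_multiset_prod, Multiset.map_map,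
      Multiset.map_map]
    conv_lhs => rw [h1]
    congr 1
    · rw [hF, leadingCoeff_map]
    · congr 1
      apply Multiset.map_congr rfl
      intro z hz
      simp only [Function.comp_apply, Polynomial.map_sub, map_X, map_C]
      congr 2
      exact (hroot z hz).symm
  · rw [Multiset.card_map, ← hs.natDegree_eq_card_roots, hF, natDegree_map]

section
variable {a : ℝ} {D : ℕ} (ha : (D : ℝ) - 1 < a)
include ha

lemma H_ne_zero : H a D ≠ 0 := by
  intro h
  have := H_coeff a D 0
  rw [h, if_pos (Nat.zero_le _)] at this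
  exact (hc_pos ha (Nat.zero_le D)).ne' (by simpa using this.symm)

lemma H_natDegree : (H a D).natDegree = D := by
  apply natDegree_eq_of_le_of_coeff_ne_zero
  · rw [natDegree_le_iff_coeff_eq_zero]
    intro N hN
    rw [H_coeff, if_neg (by omega)]
  · rw [H_coeff, if_pos le_rfl]
    exact (hc_pos ha le_rfl).ne'

lemma H_leadingCoeff : (H a D).leadingCoeff = hc a D D := by
  unfold leadingCoeff
  rw [H_natDegree ha, H_coeff, if_pos le_rfl]

/-- removing a root of `H` -/
lemma exists_K {y : ℝ} (hy : (H a D).eval y = 0) :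
    ∃ K : ℝ[X], H a D = (X - C y) * K ∧ LC K ∧ (∀ i < D, 0 < K.coeff i) ∧ (∀ i, D ≤ i → K.coeff i = 0) ∧
      ∀ t : ℝ, -1 ≤ t → 0 < K.eval t := by
  obtain ⟨s, hs, hcard⟩ := exists_multiset (H_good ha).im (H_ne_zero ha)
  have hroots : ∀ σ ∈ s, (H a D).eval σ = 0 := by
    intro σ hσ
    rw [hs, eval_mul, eval_multiset_prod, Multiset.map_map]
    have : (0 : ℝ) ∈ s.map (eval σ ∘ fun σ => (X - C σ : ℝ[X])) := by
      rw [Multiset.mem_map]
      exact ⟨σ, hσ, by simp⟩
    rw [Multiset.prod_eq_zero this, mul_zero]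
  have hlt : ∀ σ ∈ s, σ < -1 := fun σ hσ => H_root_lt ha (hroots σ hσ)
  have hys : y ∈ s := by
    rw [hs, eval_mul, eval_multiset_prod, Multiset.map_map, eval_C] at hy
    rcases mul_eq_zero.1 hy with h | h
    · exfalso
      rw [H_leadingCoeff ha] at h
      exact (hc_pos ha le_rfl).ne' h
    · rw [Multiset.prod_eq_zero_iff, Multiset.mem_map] at h
      obtain ⟨σ, hσ, h⟩ := h
      simp only [Function.comp_apply, eval_sub, eval_X, eval_C] at h
      have : y = σ := by linarith
      rw [this]; exact hσ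
  obtain ⟨s', rfl⟩ := Multiset.exists_cons_of_mem hys
  rw [Multiset.map_cons, Multiset.prod_cons] at hs
  rw [H_natDegree ha, Multiset.card_cons] at hcard
  have hlead : 0 < (H a D).leadingCoeff := by
    rw [H_leadingCoeff ha]; exact hc_pos ha le_rfl
  have hlt' : ∀ σ ∈ s', σ < -1 := fun σ hσ => hlt σ (Multiset.mem_cons_of_mem hσ)
  set Q := (s'.map fun σ => (X - C σ : ℝ[X])).prod with hQ
  refine ⟨C (H a D).leadingCoeff * Q, ?_, ?_, ?_, ?_, ?_⟩
  · rw [mul_left_comm]
    exact hs
  · exact LC_C_mul (LC_prod s' fun σ hσ => by linarith [hlt' σ hσ]) hlead.le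
  · intro i hi
    rw [coeff_C_mul]
    exact mul_pos hlead (coeff_pos_prod s' (fun σ hσ => by linarith [hlt' σ hσ]) i (by omega))
  · intro i hi
    rw [coeff_C_mul, coeff_eq_zero_of_natDegree_lt, mul_zero]
    rw [hQ, natDegree_multiset_prod_X_sub_C_eq_card]
    omega
  · intro t ht
    rw [eval_mul, eval_C]
    exact mul_pos hlead (eval_pos_prod s' fun σ hσ => by linarith [hlt' σ hσ])

/-- the formula for `E_p` at a root of `H` -/
lemma E_formula {y : ℝ} (hy : (H a D).eval y = 0) {K : ℝ[X]} (hK : H a D = (X - C y) * K)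
    (hKD : ∀ i, D ≤ i → K.coeff i = 0) :
    ∀ p, 1 ≤ p → ∀ i, p + i = D → (a + p) * hc a D (i + 1) * E a D y p = (a + 1) * K.coeff i * E a D y 1 := by
  have hcK : ∀ i, i + 1 ≤ D → hc a D (i + 1) = K.coeff i + (-y) * K.coeff (i + 1) := by
    intro i hi
    rw [← coeff_mul_X_sub_C', ← hK, H_coeff, if_pos hi]
  intro p hp
  induction p, hp using Nat.le_induction with
  | base =>
    intro i hi
    have h1 := hcK i (by omega)
    rw [hKD (i + 1) (by omega), mul_zero, add_zero] at h1
    rw [h1, Nat.cast_one]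
  | succ p hp ih =>
    intro i hi
    have h1 := ih (i + 1) (by omega)
    have h2 := E_rec ha y hp (by omega : p ≤ D)
    rw [← H_eval, hy] at h2
    have h3 := hc_rec ha (k := i + 1) (by omega)
    have h4 := hcK i (by omega)
    have hDi : (D : ℝ) = p + 1 + i := by
      have : ((p + 1 + i : ℕ) : ℝ) = D := by exact_mod_cast hi
      rw [← this]; push_cast; ring
    rw [hDi] at h2 h3
    push_cast at h3 ⊢
    have hi2 : (i : ℝ) + 2 ≠ 0 := by positivity
    have ha1 : a + 1 ≠ 0 := by
      have : (0 : ℝ) ≤ D := by positivity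
      intro h; linarith
    have hp0 : (p : ℝ) ≠ 0 := by
      have : (1 : ℝ) ≤ p := by exact_mod_cast hp
      positivity
    -- h2 : (i+2) ((a+1) E1 - (a+p+1) E') = p y (0 + (i+1-a) E)
    -- h3 : (a + p) (i+2) hc_{i+2} = p (a - (i+1)) hc_{i+1}
    apply mul_left_cancel₀ hi2
    linear_combination (-(hc a D (i + 1))) * h2 + (y * (i + 2)) * h1 - y * (E a D y p) * h3 +
      (i + 2) * (a + 1) * (E a D y 1) * h4

end

end Pool.Agent.KS6_69.Toric
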